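import Pool.Agent.H77.Nc.Low

set_option autoImplicit false

/-!
# The lower bound in general: classes of units whose quotients are small
-/

namespace Pool.Agent.H77.Nc

open Finset Filter Topology
open Pool.Agent.TH932.Germs Pool.Agent.TH551.SU Pool.Agent.TH461.SST Pool.Agent.TH551.SU.SUI

lemma gm_un_ne (i o : ℕ → ℕ) : gm (fun t => un (i t) (o t)) ≠ 0 := by
  rw [gm_ne_zero]
  exact Eventually.of_forall fun t => (un_pos _ _).ne'

/-- an element of the field of negligible germs is at most `exp (ε L)` -/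
lemma le_of_mem {L : ℕ → ℝ} {hL : Tendsto L atTop atTop} {a : ℕ → ℚ} (h : gm a ∈ KK L hL) (ε : ℝ)
    (hε : 0 < ε) : ∀ᶠ t in (UU : Filter ℕ), |((a t : ℚ) : ℝ)| ≤ Real.exp (ε * L t) := by
  obtain ⟨M, d, hM, hd, hd0, hg⟩ := h
  filter_upwards [hM ε hε, hd0, gm_eq.1 hg] with t h1 h2 h3
  rw [h3]
  push_cast
  rw [abs_div]
  have h4 : (1 : ℝ) ≤ |(d t : ℝ)| := by exact_mod_cast Int.one_le_abs h2
  exact (div_le_self (abs_nonneg _) h4).trans h1

theorem low {m : ℕ} {L : ℕ → ℝ} (hL : Tendsto L atTop atTop) (K : ℝ) (hK : 0 ≤ K)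
    (i o : Fin m → ℕ → ℕ)
    (hi : ∀ l, ∀ᶠ t in (UU : Filter ℕ), (i l t : ℝ) ≤ K * L t)
    (ho : ∀ l, ∀ᶠ t in (UU : Filter ℕ), (o l t : ℝ) ≤ K * L t)
    (c : Fin m → ℕ → ℤ) (hc : ∀ l, Negl L (c l))
    (hJ : ∀ J : Finset (Fin m), J.Nonempty →
      (∀ k ∈ J, ∀ l ∈ J,
        gm (fun t => un (i k t) (o k t)) / gm (fun t => un (i l t) (o l t)) ∈ KK L hL) →
      ∀ᶠ t in (UU : Filter ℕ), ∑ l ∈ J, (c l t : ℚ) * un (i l t) (o l t) ≠ 0)
    (ε : ℝ) (hε : 0 < ε) (k : Fin m) :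
    ∀ᶠ t in (UU : Filter ℕ), ((un (i k t) (o k t) : ℚ) : ℝ) * Real.exp (-(ε * L t)) <
      |((∑ l, (c l t : ℚ) * un (i l t) (o l t) : ℚ) : ℝ)| := by
  classical
  set u : Fin m → GG := fun l => gm (fun t => un (i l t) (o l t)) with hu
  have hu0 : ∀ l, u l ≠ 0 := fun l => gm_un_ne _ _
  let r : Setoid (Fin m) :=
    { r := fun a b => u a / u b ∈ KK L hL
      iseqv := by
        refine ⟨fun a => ?_, fun {a b} h => ?_, fun {a b d} h h' => ?_⟩
        · rw [div_self (hu0 a)]; exact one_mem _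
        · have := inv_mem h
          rwa [inv_div] at this
        · have := mul_mem h h'
          rwa [div_mul_div_cancel₀ (hu0 b)] at this }
  let Q := Quotient r
  let _ : Fintype Q := Fintype.ofFinite Q
  let e : Q ≃ Fin (Fintype.card Q) := Fintype.equivFin Q
  let rep : Fin (Fintype.card Q) → Fin m := fun j => (e.symm j).out
  have hrep : ∀ j, (⟦rep j⟧ : Q) = e.symm j := fun j => Quotient.out_eq _
  let J : Fin (Fintype.card Q) → Finset (Fin m) := fun j => univ.filter fun l => (⟦l⟧ : Q) = e.symm j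
  have hJrep : ∀ j, rep j ∈ J j := fun j => by
    simp only [J, mem_filter, mem_univ, true_and]
    exact hrep j
  have hJcl : ∀ j, ∀ a ∈ J j, ∀ b ∈ J j, u a / u b ∈ KK L hL := by
    intro j a ha b hb
    simp only [J, mem_filter, mem_univ, true_and] at ha hb
    have : (⟦a⟧ : Q) = ⟦b⟧ := by rw [ha, hb]
    exact Quotient.exact this
  let α : Fin (Fintype.card Q) → ℕ → ℚ := fun j t =>
    ∑ l ∈ J j, (c l t : ℚ) * (un (i l t) (o l t) / un (i (rep j) t) (o (rep j) t))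
  have hcK : ∀ l, gm (fun t => (c l t : ℚ)) ∈ KK L hL := fun l =>
    ⟨c l, fun _ => 1, hc l, Negl.one hL, by simp, by congr 1; funext t; simp⟩
  have hα : ∀ j, gm (α j) ∈ KK L hL := by
    intro j
    have h1 : gm (α j) = ∑ l ∈ J j, gm (fun t => (c l t : ℚ)) * (u l / u (rep j)) := by
      show gm (fun t => ∑ l ∈ J j, (c l t : ℚ) * (un (i l t) (o l t) / un (i (rep j) t) (o (rep j) t))) = _
      rw [← gm_sum]
      rfl
    rw [h1]
    exact sum_mem fun l hl => mul_mem (hcK l) (hJcl j l hl _ (hJrep j))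
  have hαm : ∀ j t, α j t * un (i (rep j) t) (o (rep j) t) =
      ∑ l ∈ J j, (c l t : ℚ) * un (i l t) (o l t) := by
    intro j t
    simp only [α]
    rw [Finset.sum_mul]
    refine Finset.sum_congr rfl fun l _ => ?_
    have := (un_pos (i (rep j) t) (o (rep j) t)).ne'
    field_simp
  have hα0 : ∀ j, gm (α j) ≠ 0 := by
    intro j
    rw [gm_ne_zero]
    filter_upwards [hJ (J j) ⟨_, hJrep j⟩ (fun a ha b hb => hJcl j a ha b hb)] with t ht h0
    apply ht
    rw [← hαm, h0, zero_mul]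
  have hne : ∀ j j', j ≠ j' → u (rep j) / u (rep j') ∉ KK L hL := by
    intro j j' hjj h
    apply hjj
    have h1 : (⟦rep j⟧ : Q) = ⟦rep j'⟧ := Quotient.sound h
    rw [hrep, hrep] at h1
    exact e.symm.injective h1
  have h1 := glb hL K hK (fun j => i (rep j)) (fun j => o (rep j)) (fun j => hi _) (fun j => ho _)
    α hα hα0 hne (ε / 2) (by positivity) (e ⟦k⟧)
  have hk : k ∈ J (e ⟦k⟧) := by simp [J]
  have h2 := le_of_mem (a := fun t => un (i k t) (o k t) / un (i (rep (e ⟦k⟧)) t) (o (rep (e ⟦k⟧)) t))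
    (hJcl _ k hk _ (hJrep (e ⟦k⟧))) (ε / 2) (by positivity)
  filter_upwards [h1, h2] with t a1 a2
  have h3 : ∑ l, (c l t : ℚ) * un (i l t) (o l t) =
      ∑ j, α j t * un (i (rep j) t) (o (rep j) t) := by
    have h4 : ∑ l, (c l t : ℚ) * un (i l t) (o l t) =
        ∑ j, ∑ l ∈ univ.filter (fun l => e (⟦l⟧ : Q) = j), (c l t : ℚ) * un (i l t) (o l t) :=
      (Finset.sum_fiberwise _ _ _).symm
    rw [h4]
    refine Finset.sum_congr rfl fun j _ => ?_
    rw [hαm]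
    apply Finset.sum_congr _ fun _ _ => rfl
    ext l
    simp only [J, mem_filter, mem_univ, true_and]
    rw [Equiv.eq_symm_apply]
  rw [h3]
  refine lt_of_le_of_lt ?_ a1
  have h5 : (0 : ℝ) < ((un (i (rep (e ⟦k⟧)) t) (o (rep (e ⟦k⟧)) t) : ℚ) : ℝ) := by
    exact_mod_cast un_pos _ _
  have h6 : (0 : ℝ) < ((un (i k t) (o k t) : ℚ) : ℝ) := by exact_mod_cast un_pos _ _
  push_cast at a2
  rw [abs_of_pos (by positivity), div_le_iff₀ h5] at a2
  calc ((un (i k t) (o k t) : ℚ) : ℝ) * Real.exp (-(ε * L t)) ≤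
      (Real.exp (ε / 2 * L t) * ((un (i (rep (e ⟦k⟧)) t) (o (rep (e ⟦k⟧)) t) : ℚ) : ℝ)) *
        Real.exp (-(ε * L t)) := mul_le_mul_of_nonneg_right a2 (Real.exp_pos _).le
    _ = ((un (i (rep (e ⟦k⟧)) t) (o (rep (e ⟦k⟧)) t) : ℚ) : ℝ) * Real.exp (-(ε / 2 * L t)) := by
      rw [mul_comm (Real.exp (ε / 2 * L t)), mul_assoc, ← Real.exp_add]
      congr 2
      ring

end Pool.Agent.H77.Nc
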