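import Pool.Agent.H77.Nc.Pow

set_option autoImplicit false

/-!
# Small values of linear forms come from the parity word
-/

namespace Pool.Agent.H77.Nc

open Finset Filter Topology

/-- the terms after `T^i x` -/
lemma aff (x : ℤ) (i t : ℕ) :
    |((T^[i + t] x : ℤ) : ℝ) - ur (i + t) (odds x (i + t)) / ur i (odds x i) * ((T^[i] x : ℤ) : ℝ)| ≤
      (3 / 2) ^ t - 1 := by
  induction t with
  | zero =>
    have := (ur_pos i (odds x i)).ne'
    simp [this]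
  | succ t ih =>
    have hu : ∀ b : ℕ, ur (i + t + 1) (odds x (i + t) + b) = 3 ^ b / 2 * ur (i + t) (odds x (i + t)) := by
      intro b
      unfold ur
      rw [pow_succ, pow_add]
      field_simp
    rw [← add_assoc, Function.iterate_succ_apply', odds_succ, hu, pow_succ]
    have h3 : (0 : ℝ) < (3 / 2) ^ t := by positivity
    by_cases hev : T^[i + t] x % 2 = 0
    · rw [if_pos hev, T_even hev]
      have e : ((T^[i + t] x : ℤ) : ℝ) / 2 - 3 ^ 0 / 2 * ur (i + t) (odds x (i + t)) / ur i (odds x i) *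
          ((T^[i] x : ℤ) : ℝ) = (1 / 2) * (((T^[i + t] x : ℤ) : ℝ) -
            ur (i + t) (odds x (i + t)) / ur i (odds x i) * ((T^[i] x : ℤ) : ℝ)) := by ring
      rw [e, abs_mul, abs_of_pos (by norm_num : (0 : ℝ) < 1 / 2)]
      have h4 := abs_nonneg (((T^[i + t] x : ℤ) : ℝ) -
            ur (i + t) (odds x (i + t)) / ur i (odds x i) * ((T^[i] x : ℤ) : ℝ))
      linarith
    · rw [if_neg hev, T_odd hev]
      have e : (3 * ((T^[i + t] x : ℤ) : ℝ) + 1) / 2 - 3 ^ 1 / 2 * ur (i + t) (odds x (i + t)) /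
          ur i (odds x i) * ((T^[i] x : ℤ) : ℝ) = (3 / 2) * (((T^[i + t] x : ℤ) : ℝ) -
            ur (i + t) (odds x (i + t)) / ur i (odds x i) * ((T^[i] x : ℤ) : ℝ)) + 1 / 2 := by ring
      rw [e]
      refine (abs_add_le _ _).trans ?_
      rw [abs_mul, abs_of_pos (by norm_num : (0 : ℝ) < 3 / 2), abs_of_pos (by norm_num : (0 : ℝ) < 1 / 2)]
      linarith

/-- a vanishing sum of units gives a small sum of terms -/
lemma group_small (x : ℤ) (J : Finset ℕ) (c : ℕ → ℤ) (H : ℝ) (hH : 0 ≤ H) (i₀ w : ℕ)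
    (hJ : ∀ i ∈ J, i₀ ≤ i ∧ i ≤ i₀ + w ∧ |(c i : ℝ)| ≤ H)
    (h : ∑ i ∈ J, (c i : ℝ) * ur i (odds x i) = 0) :
    |∑ i ∈ J, (c i : ℝ) * ((T^[i] x : ℤ) : ℝ)| ≤ J.card * (H * (3 / 2) ^ w) := by
  have h1 : ∑ i ∈ J, (c i : ℝ) * ((T^[i] x : ℤ) : ℝ) = ∑ i ∈ J, (c i : ℝ) *
      (((T^[i] x : ℤ) : ℝ) - ur i (odds x i) / ur i₀ (odds x i₀) * ((T^[i₀] x : ℤ) : ℝ)) := by
    have h2 : ∑ i ∈ J, (c i : ℝ) * (ur i (odds x i) / ur i₀ (odds x i₀) * ((T^[i₀] x : ℤ) : ℝ)) = 0 := by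
      have h3 : ∀ i ∈ J, (c i : ℝ) * (ur i (odds x i) / ur i₀ (odds x i₀) * ((T^[i₀] x : ℤ) : ℝ)) =
          ((c i : ℝ) * ur i (odds x i)) * (((T^[i₀] x : ℤ) : ℝ) / ur i₀ (odds x i₀)) := by
        intro i _; ring
      rw [Finset.sum_congr rfl h3, ← Finset.sum_mul, h, zero_mul]
    simp only [mul_sub]
    rw [Finset.sum_sub_distrib, h2, sub_zero]
  rw [h1]
  refine (Finset.abs_sum_le_sum_abs _ _).trans ?_
  rw [← nsmul_eq_mul]
  apply Finset.sum_le_card_nsmul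
  intro i hi
  obtain ⟨h2, h3, h4⟩ := hJ i hi
  rw [abs_mul]
  refine mul_le_mul h4 ?_ (abs_nonneg _) hH
  obtain ⟨t, rfl⟩ := Nat.exists_eq_add_of_le h2
  refine (aff x i₀ t).trans ?_
  have h5 : ((3 : ℝ) / 2) ^ t ≤ (3 / 2) ^ w := pow_le_pow_right₀ (by norm_num) (by omega)
  linarith

/-- **A small value of a linear form with few terms of a window comes from an exact relation.** -/
theorem rigid (r : ℕ) : ∀ (K ε : ℝ), 0 < ε → ∃ δ : ℝ, 0 < δ ∧ ∃ N₀ : ℝ, 1 ≤ N₀ ∧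
    ∀ (x : ℤ) (n : ℕ) (N : ℝ), N₀ ≤ N → (n : ℝ) ≤ K * Real.log N → Above x n N →
    ∀ (I : Finset ℕ) (c : ℕ → ℤ), I.card ≤ r → (∀ i ∈ I, i ≤ n ∧ |(c i : ℝ)| ≤ N ^ δ) →
    |∑ i ∈ I, (c i : ℝ) * ((T^[i] x : ℤ) : ℝ)| ≤ N ^ (1 - ε) →
    ∑ i ∈ I, (c i : ℝ) * ur i (odds x i) = 0 ∧
      |∑ i ∈ I, (c i : ℝ) * ((T^[i] x : ℤ) : ℝ)| ≤ N ^ ε := by
  classical
  induction r with
  | zero =>
    intro K ε _
    refine ⟨1, one_pos, 1, le_rfl, ?_⟩
    intro x n N hN _ _ I c hI _ _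
    rw [Nat.le_zero, Finset.card_eq_zero] at hI
    rw [hI, Finset.sum_empty, Finset.sum_empty, abs_zero]
    exact ⟨rfl, Real.rpow_nonneg (by linarith) _⟩
  | succ r ih =>
    intro K ε hε
    set ε' : ℝ := min ε 1 with hε'
    have he0 : 0 < ε' := lt_min hε one_pos
    have he1 : ε' ≤ 1 := min_le_right _ _
    have hee : ε' ≤ ε := min_le_left _ _
    obtain ⟨δ₁, hδ₁, N₁, hN₁, h1⟩ := ih K (ε' / 2) (by positivity)
    obtain ⟨δ₂, hδ₂, N₂, hN₂, h2⟩ := forms (r + 1) 1 K (ε' / 4) (by positivity)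
    obtain ⟨N₃, hN₃, h3⟩ := const_le (2 * (r + 1)) (ε' / 8) (by positivity)
    obtain ⟨N₄, hN₄, h4⟩ := const_le 2 (ε' / 2) (by positivity)
    refine ⟨min (min δ₁ δ₂) (ε' / 8), lt_min (lt_min hδ₁ hδ₂) (by positivity),
      max (max N₁ N₂) (max N₃ (max N₄ 2)), hN₁.trans ((le_max_left _ _).trans (le_max_left _ _)), ?_⟩
    intro x n N hN hn hab I c hI hc hF
    simp only [max_le_iff] at hN
    obtain ⟨⟨hNN₁, hNN₂⟩, hNN₃, hNN₄, hN2⟩ := hN
    have hN1 : 1 ≤ N := by linarith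
    have hN0 : 0 < N := by linarith
    replace h3 := h3 N hNN₃
    replace h4 := h4 N hNN₄
    have hlogN : 0 ≤ Real.log N := Real.log_nonneg hN1
    have hc1 : ∀ i ∈ I, |(c i : ℝ)| ≤ N ^ δ₁ := fun i hi => (hc i hi).2.trans
      (Real.rpow_le_rpow_of_exponent_le hN1 ((min_le_left _ _).trans (min_le_left _ _)))
    have hc2 : ∀ i ∈ I, |(c i : ℝ)| ≤ N ^ δ₂ := fun i hi => (hc i hi).2.trans
      (Real.rpow_le_rpow_of_exponent_le hN1 ((min_le_left _ _).trans (min_le_right _ _)))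
    have hc3 : ∀ i ∈ I, |(c i : ℝ)| ≤ N ^ (ε' / 8) := fun i hi => (hc i hi).2.trans
      (Real.rpow_le_rpow_of_exponent_le hN1 (min_le_right _ _))
    have hF' : |∑ i ∈ I, (c i : ℝ) * ((T^[i] x : ℤ) : ℝ)| ≤ N ^ (1 - ε') :=
      hF.trans (Real.rpow_le_rpow_of_exponent_le hN1 (by linarith))
    rcases Nat.lt_or_ge I.card (r + 1) with hcard | hcard
    · obtain ⟨h5, h6⟩ := h1 x n N hNN₁ hn hab I c (by omega) (fun i hi => ⟨(hc i hi).1, hc1 i hi⟩)
        (hF'.trans (Real.rpow_le_rpow_of_exponent_le hN1 (by linarith)))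
      exact ⟨h5, h6.trans (Real.rpow_le_rpow_of_exponent_le hN1 (by linarith))⟩
    have hcard' : I.card = r + 1 := by omega
    let f : Fin (r + 1) → ℕ := I.orderEmbOfFin hcard'
    have hfinj : Function.Injective f := (I.orderEmbOfFin hcard').injective
    have hfmem : ∀ l, f l ∈ I := fun l => Finset.orderEmbOfFin_mem _ _ _
    have hfim : univ.image f = I := Finset.image_orderEmbOfFin_univ I hcard'
    have hsum : ∀ F : ℕ → ℝ, ∑ i ∈ I, F i = ∑ l, F (f l) := by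
      intro F
      have h1 : ∑ i ∈ univ.image f, F i = ∑ l, F (f l) := Finset.sum_image (fun a _ b _ h => hfinj h)
      rw [← h1, hfim]
    -- there is a vanishing sum of close units
    have hnr : ¬ NoRel (ε' / 4) N x (fun l (_ : Fin 1) => f l) (fun l => c (f l)) := by
      intro hnr
      have key := h2 x n N hNN₂ hn hab (fun l _ => f l) (fun l => c (f l))
        (fun l _ => (hc _ (hfmem l)).1) (fun l => hc2 _ (hfmem l)) hnr 0
      simp only [Finset.prod_const, Finset.card_univ, Fintype.card_fin, pow_one] at key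
      have e := hsum fun i => (c i : ℝ) * ((T^[i] x : ℤ) : ℝ)
      rw [← e] at key
      have h5 : N ≤ N ^ (ε' / 4) * N ^ (1 - ε') :=
        (hab _ (hc _ (hfmem 0)).1).trans (key.trans
          (mul_le_mul_of_nonneg_left hF' (Real.rpow_nonneg hN0.le _)))
      have h6 : N ^ (ε' / 4) * N ^ (1 - ε') * N ^ (3 * ε' / 4) = N := by
        rw [← Real.rpow_add hN0, ← Real.rpow_add hN0]
        have : ε' / 4 + (1 - ε') + 3 * ε' / 4 = 1 := by ring
        rw [this, Real.rpow_one]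
      have h7 : 1 < N ^ (3 * ε' / 4) := Real.one_lt_rpow (by linarith) (by positivity)
      have h8 : 0 < N ^ (ε' / 4) * N ^ (1 - ε') := by positivity
      nlinarith
    unfold NoRel at hnr
    push Not at hnr
    obtain ⟨J, hJ, hclose, hzero⟩ := hnr
    set J' := J.image f with hJ'
    have hJ'I : J' ⊆ I := by
      intro i hi
      rw [hJ', mem_image] at hi
      obtain ⟨l, _, rfl⟩ := hi
      exact hfmem l
    have hJ'ne : J'.Nonempty := hJ.image f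
    have hu : ∀ i, (3 : ℝ) ^ odds x i / 2 ^ i = ur i (odds x i) := fun i => rfl
    have hz : ∑ i ∈ J', (c i : ℝ) * ur i (odds x i) = 0 := by
      rw [hJ', Finset.sum_image (fun a _ b _ h => hfinj h), ← hzero]
      refine Finset.sum_congr rfl fun l _ => ?_
      simp only [Finset.prod_const, Finset.card_univ, Fintype.card_fin, pow_one]
      rfl
    obtain ⟨i₀, hi₀, hmin⟩ : ∃ i₀ ∈ J', ∀ i ∈ J', i₀ ≤ i :=
      ⟨J'.min' hJ'ne, J'.min'_mem _, fun i hi => J'.min'_le i hi⟩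
    have hw : ∀ i ∈ J', i ≤ i₀ + ⌊ε' / 4 * Real.log N⌋₊ := by
      intro i hi
      have hi' := hi
      have hi₀' := hi₀
      rw [hJ', mem_image] at hi' hi₀'
      obtain ⟨a, ha, haf⟩ := hi'
      obtain ⟨b, hb, hbf⟩ := hi₀'
      have h5 := hclose a ha b hb
      simp only [Fin.sum_univ_one, haf, hbf] at h5
      have h6 : i - i₀ ≤ ⌊ε' / 4 * Real.log N⌋₊ := by
        apply Nat.le_floor
        rw [Nat.cast_sub (hmin i hi)]
        exact (le_abs_self _).trans h5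
      have := hmin i hi
      omega
    have hgrp := group_small x J' c (N ^ (ε' / 8)) (Real.rpow_nonneg hN0.le _) i₀
      ⌊ε' / 4 * Real.log N⌋₊ (fun i hi => ⟨hmin i hi, hw i hi, hc3 i (hJ'I hi)⟩) hz
    have hpow : ((3 : ℝ) / 2) ^ ⌊ε' / 4 * Real.log N⌋₊ ≤ N ^ (ε' / 4) := by
      have h5 : (3 / 2 : ℝ) ≤ Real.exp 1 := by
        have := Real.add_one_le_exp (1 : ℝ); linarith
      calc ((3 : ℝ) / 2) ^ ⌊ε' / 4 * Real.log N⌋₊ ≤ Real.exp 1 ^ ⌊ε' / 4 * Real.log N⌋₊ :=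
            pow_le_pow_left₀ (by norm_num) h5 _
        _ = Real.exp (⌊ε' / 4 * Real.log N⌋₊ : ℝ) := by rw [← Real.exp_nat_mul, mul_one]
        _ ≤ Real.exp (Real.log N * (ε' / 4)) := by
          apply Real.exp_le_exp.2
          have h6 := Nat.floor_le (show 0 ≤ ε' / 4 * Real.log N by positivity)
          linarith
        _ = N ^ (ε' / 4) := by rw [Real.rpow_def_of_pos hN0]
    have hgrp' : |∑ i ∈ J', (c i : ℝ) * ((T^[i] x : ℤ) : ℝ)| ≤ N ^ (ε' / 2) / 2 := by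
      refine hgrp.trans ?_
      have h5 : (J'.card : ℝ) ≤ r + 1 := by
        have := Finset.card_le_card hJ'I
        rw [hcard'] at this
        exact_mod_cast this
      have h6 : N ^ (ε' / 8) * (3 / 2) ^ ⌊ε' / 4 * Real.log N⌋₊ ≤ N ^ (ε' / 8) * N ^ (ε' / 4) :=
        mul_le_mul_of_nonneg_left hpow (Real.rpow_nonneg hN0.le _)
      have h7 : 0 ≤ N ^ (ε' / 8) * (3 / 2) ^ ⌊ε' / 4 * Real.log N⌋₊ := by positivity
      calc _ ≤ ((r : ℝ) + 1) * (N ^ (ε' / 8) * N ^ (ε' / 4)) := by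
            apply mul_le_mul h5 h6 h7 (by positivity)
        _ ≤ (N ^ (ε' / 8) / 2) * (N ^ (ε' / 8) * N ^ (ε' / 4)) := by
            apply mul_le_mul_of_nonneg_right _ (by positivity)
            linarith
        _ = N ^ (ε' / 2) / 2 := by
            have : N ^ (ε' / 2) = N ^ (ε' / 8) * (N ^ (ε' / 8) * N ^ (ε' / 4)) := by
              rw [← Real.rpow_add hN0, ← Real.rpow_add hN0]
              ring_nf
            rw [this]
            ring
    -- the rest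
    have h5' := Finset.sum_sdiff (f := fun i => (c i : ℝ) * ((T^[i] x : ℤ) : ℝ)) hJ'I
    have hrest : |∑ i ∈ I \ J', (c i : ℝ) * ((T^[i] x : ℤ) : ℝ)| ≤ N ^ (1 - ε' / 2) := by
      have h5 := h5'
      have h6 : ∑ i ∈ I \ J', (c i : ℝ) * ((T^[i] x : ℤ) : ℝ) =
          ∑ i ∈ I, (c i : ℝ) * ((T^[i] x : ℤ) : ℝ) - ∑ i ∈ J', (c i : ℝ) * ((T^[i] x : ℤ) : ℝ) := by
        rw [← h5]; ring
      rw [h6]
      refine (abs_sub _ _).trans ?_
      have h7 : N ^ (1 - ε') ≤ N ^ (1 - ε' / 2) / 2 := by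
        have h8 : N ^ (1 - ε' / 2) = N ^ (1 - ε') * N ^ (ε' / 2) := by
          rw [← Real.rpow_add hN0]; ring_nf
        rw [h8]
        have h9 : 0 ≤ N ^ (1 - ε') := Real.rpow_nonneg hN0.le _
        nlinarith
      have h8 : N ^ (ε' / 2) ≤ N ^ (1 - ε' / 2) :=
        Real.rpow_le_rpow_of_exponent_le hN1 (by linarith)
      linarith
    obtain ⟨h5, h5''⟩ := h1 x n N hNN₁ hn hab (I \ J') c (by
      have h6 : (I \ J').card < I.card := by
        apply Finset.card_lt_card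
        rw [Finset.ssubset_iff_subset_ne]
        refine ⟨Finset.sdiff_subset, ?_⟩
        intro h7
        obtain ⟨i, hi⟩ := hJ'ne
        have h8 := hJ'I hi
        rw [← h7, Finset.mem_sdiff] at h8
        exact h8.2 hi
      omega) (fun i hi => ⟨(hc i (Finset.mem_sdiff.1 hi).1).1, hc1 i (Finset.mem_sdiff.1 hi).1⟩) hrest
    refine ⟨by rw [← Finset.sum_sdiff hJ'I, h5, hz, add_zero], ?_⟩
    rw [← h5']
    refine (abs_add_le _ _).trans ?_
    have h6 : 0 ≤ N ^ (ε' / 2) := Real.rpow_nonneg hN0.le _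
    have h7 : 2 * N ^ (ε' / 2) ≤ N ^ ε := by
      have h8 : N ^ (ε' / 2) * N ^ (ε' / 2) = N ^ ε' := by
        rw [← Real.rpow_add hN0]; ring_nf
      have h9 : N ^ ε' ≤ N ^ ε := Real.rpow_le_rpow_of_exponent_le hN1 hee
      nlinarith
    linarith

/-- integers which agree modulo `2 ^ n` have the same parity words of length `n` -/
lemma transfer (x y : ℤ) (n : ℕ) (h : (2 : ℤ) ^ n ∣ y - x) (i : ℕ) (hi : i ≤ n) :
    (2 : ℤ) ^ (n - i) ∣ T^[i] y - T^[i] x ∧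
      ((T^[i] y : ℤ) : ℝ) - ((T^[i] x : ℤ) : ℝ) = ur i (odds x i) * ((y : ℝ) - x) := by
  induction i with
  | zero =>
    refine ⟨by simpa using h, ?_⟩
    simp [odds_zero, ur]
  | succ i ih =>
    obtain ⟨h1, h2⟩ := ih (by omega)
    have hu : ∀ b : ℕ, ur (i + 1) (odds x i + b) = 3 ^ b / 2 * ur i (odds x i) := by
      intro b
      unfold ur
      rw [pow_succ, pow_add]
      field_simp
    have h3 : n - i = (n - (i + 1)) + 1 := by omega
    rw [h3, pow_succ] at h1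
    obtain ⟨m, hm⟩ := h1
    rw [Function.iterate_succ_apply', Function.iterate_succ_apply', odds_succ, hu]
    set u := T^[i] x with hu'
    set v := T^[i] y with hv'
    set P : ℤ := 2 ^ (n - (i + 1)) with hP
    have hv : v = u + 2 * (P * m) := by linarith
    by_cases hev : u % 2 = 0
    · have hev' : v % 2 = 0 := by omega
      have e1 : 2 * T u = u := by unfold T; rw [if_pos hev]; omega
      have e2 : 2 * T v = v := by unfold T; rw [if_pos hev']; omega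
      refine ⟨⟨m, by linarith⟩, ?_⟩
      rw [if_pos hev, T_even hev, T_even hev', pow_zero]
      linarith
    · have hev' : ¬ v % 2 = 0 := by omega
      have e1 : 2 * T u = 3 * u + 1 := by unfold T; rw [if_neg hev]; omega
      have e2 : 2 * T v = 3 * v + 1 := by unfold T; rw [if_neg hev']; omega
      refine ⟨⟨3 * m, by linarith⟩, ?_⟩
      rw [if_neg hev, T_odd hev, T_odd hev', pow_one]
      linarith

/-- **Small values of linear forms with few terms of a window come from the parity word.** -/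
theorem parity (r : ℕ) (K ε : ℝ) (hε : 0 < ε) : ∃ δ : ℝ, 0 < δ ∧ ∃ N₀ : ℝ, 1 ≤ N₀ ∧
    ∀ (x : ℤ) (n : ℕ) (N : ℝ), N₀ ≤ N → (n : ℝ) ≤ K * Real.log N → Above x n N →
    ∀ (I : Finset ℕ) (c : ℕ → ℤ), I.card ≤ r → (∀ i ∈ I, i ≤ n ∧ |(c i : ℝ)| ≤ N ^ δ) →
    |∑ i ∈ I, (c i : ℝ) * ((T^[i] x : ℤ) : ℝ)| ≤ N ^ (1 - ε) →
    |∑ i ∈ I, (c i : ℝ) * ((T^[i] x : ℤ) : ℝ)| ≤ N ^ ε ∧
    ∀ y : ℤ, (2 : ℤ) ^ n ∣ y - x → ∑ i ∈ I, c i * T^[i] y = ∑ i ∈ I, c i * T^[i] x := by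
  obtain ⟨δ, hδ, N₀, hN₀, h⟩ := rigid r K ε hε
  refine ⟨δ, hδ, N₀, hN₀, ?_⟩
  intro x n N hN hn hab I c hI hc hF
  obtain ⟨h1, h1'⟩ := h x n N hN hn hab I c hI hc hF
  refine ⟨h1', ?_⟩
  intro y hy
  have h2 : ∑ i ∈ I, (c i : ℝ) * ((T^[i] y : ℤ) : ℝ) - ∑ i ∈ I, (c i : ℝ) * ((T^[i] x : ℤ) : ℝ) = 0 := by
    rw [← Finset.sum_sub_distrib]
    have h3 : ∀ i ∈ I, (c i : ℝ) * ((T^[i] y : ℤ) : ℝ) - (c i : ℝ) * ((T^[i] x : ℤ) : ℝ) =
        ((c i : ℝ) * ur i (odds x i)) * ((y : ℝ) - x) := by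
      intro i hi
      rw [← mul_sub, (transfer x y n hy i (hc i hi).1).2, mul_assoc]
    rw [Finset.sum_congr rfl h3, ← Finset.sum_mul, h1, zero_mul]
  have h4 : ((∑ i ∈ I, c i * T^[i] y : ℤ) : ℝ) = ((∑ i ∈ I, c i * T^[i] x : ℤ) : ℝ) := by
    push_cast
    linarith
  exact_mod_cast h4

end Pool.Agent.H77.Nc
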