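import Pool.Agent.H77.Nc.Far

set_option autoImplicit false

/-!
# Trajectories which grow at least exponentially
-/

namespace Pool.Agent.H77.Nc

open Finset Filter Topology

lemma exp_ev (B b : ℝ) (hb : 0 < b) : ∃ k₀ : ℕ, ∀ q : ℕ, k₀ ≤ q → B ≤ Real.exp (b * q) := by
  have h1 : Tendsto (fun q : ℕ => Real.exp (b * q)) atTop atTop :=
    Real.tendsto_exp_atTop.comp ((tendsto_natCast_atTop_atTop).const_mul_atTop hb)
  exact eventually_atTop.1 (h1.eventually_ge_atTop B)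

/-- **Sums of `r` terms of a trajectory which grows at least exponentially.** -/
theorem tail (r d : ℕ) (hd : 1 ≤ d) (H ε : ℝ) (hε : 0 < ε) (hε1 : ε < 1) (x : ℤ) (a : ℝ) (ha : 0 < a)
    (hx : ∀ᶠ k : ℕ in atTop, Real.exp (a * k) ≤ |((T^[k] x : ℤ) : ℝ)|) : ∃ k₀ : ℕ,
    ∀ (I : Finset ℕ) (c : ℕ → ℤ), I.card ≤ r → (∀ i ∈ I, c i % 2 = 1 ∧ |(c i : ℝ)| ≤ H) →
    ∀ q ∈ I, k₀ ≤ q → ∀ j ∈ I, |((T^[j] x : ℤ) : ℝ)| ^ ((d : ℝ) * (1 - ε)) ≤
      |∑ i ∈ I, (c i : ℝ) * ((T^[i] x : ℤ) : ℝ) ^ d| := by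
  classical
  have hd1 : (1 : ℝ) ≤ d := by exact_mod_cast hd
  obtain ⟨k₁, hk₁⟩ := eventually_atTop.1 hx
  set η : ℝ := min 1 (a / 4) with hη
  have hη0 : 0 < η := lt_min one_pos (by positivity)
  have hη1 : η ≤ 1 := min_le_left _ _
  have hηa : η ≤ a / 4 := min_le_right _ _
  obtain ⟨δ, hδ, N₀, hN₀, h⟩ := window r d hd (1 / (a * η)) (d * ε / 2) (by positivity)
  obtain ⟨e1, he1⟩ := exp_ev (Real.exp k₁) η hη0
  obtain ⟨e2, he2⟩ := exp_ev N₀ (a * η) (by positivity)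
  obtain ⟨e3, he3⟩ := exp_ev H (a * η * δ) (by positivity)
  obtain ⟨e4, he4⟩ := exp_ev (|(x : ℝ)| + 1) (3 * a / 4) (by positivity)
  obtain ⟨e5, he5⟩ := exp_ev 2 (a * (d * ε / 2)) (by positivity)
  obtain ⟨e6, he6⟩ := exp_ev (2 * (r * H * |(x : ℝ)| ^ d)) (a * (d / 4)) (by positivity)
  refine ⟨max k₁ (max (max e1 e2) (max (max e3 e4) (max e5 e6))), ?_⟩
  intro I c hI hc q₀ hq₀ hq₀k
  -- the largest element
  obtain ⟨q, hqI, hqmax⟩ : ∃ q ∈ I, ∀ i ∈ I, i ≤ q :=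
    ⟨I.max' ⟨q₀, hq₀⟩, I.max'_mem _, fun i hi => I.le_max' i hi⟩
  have hqk : max k₁ (max (max e1 e2) (max (max e3 e4) (max e5 e6))) ≤ q := hq₀k.trans (hqmax _ hq₀)
  simp only [max_le_iff] at hqk
  obtain ⟨hk1q, ⟨h1q, h2q⟩, ⟨h3q, h4q⟩, h5q, h6q⟩ := hqk
  replace he1 := he1 q h1q
  replace he2 := he2 q h2q
  replace he3 := he3 q h3q
  replace he4 := he4 q h4q
  replace he5 := he5 q h5q
  replace he6 := he6 q h6q
  have hq0 : (0 : ℝ) ≤ q := Nat.cast_nonneg _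
  have hk1η : (k₁ : ℝ) ≤ η * q := Real.exp_le_exp.1 he1
  -- the largest term
  obtain ⟨m, hmI, hmmax⟩ := Finset.exists_max_image I (fun i => |((T^[i] x : ℤ) : ℝ)|) ⟨q, hqI⟩
  set M : ℝ := |((T^[m] x : ℤ) : ℝ)| with hM
  have hqM : Real.exp (a * q) ≤ M := (hk₁ q hk1q).trans (hmmax q hqI)
  have hM0 : 0 < M := (Real.exp_pos _).trans_le hqM
  have hM1 : 1 ≤ M := (Real.one_le_exp (by positivity)).trans hqM
  have hexpM : ∀ b : ℝ, 0 ≤ b → Real.exp (a * b * q) ≤ M ^ b := by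
    intro b hb
    have h1 : Real.exp (a * b * q) = Real.exp (a * q) ^ b := by
      rw [← Real.exp_mul]; ring_nf
    rw [h1]
    exact Real.rpow_le_rpow (Real.exp_pos _).le hqM hb
  set s : ℕ := ⌈η * q⌉₊ with hs
  have hslow : ∀ i : ℕ, i < s → |((T^[i] x : ℤ) : ℝ)| ≤ |(x : ℝ)| * Real.exp (a * q / 4) := by
    intro i hi
    have h1 : (i : ℝ) < η * q := Nat.lt_ceil.1 hi
    have h2 : (2 : ℝ) ^ i ≤ Real.exp (a * q / 4) := by
      have h3 : (2 : ℝ) ≤ Real.exp 1 := by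
        have := Real.add_one_le_exp (1 : ℝ); linarith
      calc (2 : ℝ) ^ i ≤ Real.exp 1 ^ i := pow_le_pow_left₀ (by norm_num) h3 i
        _ = Real.exp i := by rw [← Real.exp_nat_mul, mul_one]
        _ ≤ Real.exp (a * q / 4) := by
          apply Real.exp_le_exp.2
          nlinarith
    refine (iter_le x i).trans ?_
    rw [mul_comm]
    exact mul_le_mul_of_nonneg_left h2 (abs_nonneg _)
  have hsm : s ≤ m := by
    by_contra hlt
    have h1 := hslow m (by omega)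
    have h2 : Real.exp (a * q) = Real.exp (3 * a / 4 * q) * Real.exp (a * q / 4) := by
      rw [← Real.exp_add]; ring_nf
    have h3 : |(x : ℝ)| * Real.exp (a * q / 4) < Real.exp (a * q) := by
      rw [h2]
      apply mul_lt_mul_of_pos_right _ (Real.exp_pos _)
      linarith
    rw [← hM] at h1
    linarith
  have hsq : s ≤ q := hsm.trans (hqmax m hmI)
  have hsum : (∑ i ∈ I, (c i : ℝ) * ((T^[i] x : ℤ) : ℝ) ^ d) =
      ∑ i ∈ I.filter (fun i => s ≤ i), (c i : ℝ) * ((T^[i] x : ℤ) : ℝ) ^ d +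
      ∑ i ∈ I.filter (fun i => ¬ s ≤ i), (c i : ℝ) * ((T^[i] x : ℤ) : ℝ) ^ d :=
    (Finset.sum_filter_add_sum_filter_not _ _ _).symm
  set A := ∑ i ∈ I.filter (fun i => s ≤ i), (c i : ℝ) * ((T^[i] x : ℤ) : ℝ) ^ d with hA
  set B := ∑ i ∈ I.filter (fun i => ¬ s ≤ i), (c i : ℝ) * ((T^[i] x : ℤ) : ℝ) ^ d with hB
  -- the main part
  have hmain : M ^ d ≤ M ^ ((d : ℝ) * ε / 2) * |A| := by
    have key := h x s (q - s) (Real.exp (a * η * q)) he2 (by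
      rw [Real.log_exp, div_mul_eq_mul_div, one_mul, le_div_iff₀ (by positivity)]
      have h1 : ((q - s : ℕ) : ℝ) ≤ q := by exact_mod_cast Nat.sub_le _ _
      nlinarith [mul_pos ha hη0]) (by
      intro i h1 _
      have h2 : η * q ≤ i := (Nat.le_ceil _).trans (by exact_mod_cast h1)
      have h3 : k₁ ≤ i := by
        have : (k₁ : ℝ) ≤ i := hk1η.trans h2
        exact_mod_cast this
      refine le_trans ?_ (hk₁ i h3)
      apply Real.exp_le_exp.2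
      nlinarith) (I.filter fun i => s ≤ i) c ((Finset.card_filter_le _ _).trans hI) (by
      intro i hi
      rw [mem_filter] at hi
      refine ⟨hi.2, ?_, (hc i hi.1).1, (hc i hi.1).2.trans ?_⟩
      · have := hqmax i hi.1
        omega
      · rw [← Real.exp_mul]
        refine he3.trans (le_of_eq ?_)
        ring_nf) m (by rw [mem_filter]; exact ⟨hmI, hsm⟩)
    refine key.trans ?_
    apply mul_le_mul_of_nonneg_right _ (abs_nonneg _)
    apply Real.rpow_le_rpow (Real.exp_pos _).le _ (by positivity)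
    refine le_trans ?_ hqM
    apply Real.exp_le_exp.2
    have h1 : a * η ≤ a * 1 := mul_le_mul_of_nonneg_left hη1 ha.le
    have h2 := mul_le_mul_of_nonneg_right h1 hq0
    rwa [mul_one] at h2
  -- the small part
  have hH0 : 0 ≤ H := (abs_nonneg _).trans (hc q hqI).2
  have hsmall : |B| ≤ r * H * |(x : ℝ)| ^ d * M ^ ((d : ℝ) / 4) := by
    rw [hB]
    refine (Finset.abs_sum_le_sum_abs _ _).trans ?_
    have h1 : ∀ i ∈ I.filter (fun i => ¬ s ≤ i), |(c i : ℝ) * ((T^[i] x : ℤ) : ℝ) ^ d| ≤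
        H * (|(x : ℝ)| ^ d * M ^ ((d : ℝ) / 4)) := by
      intro i hi
      rw [mem_filter, not_le] at hi
      rw [abs_mul, abs_pow]
      refine mul_le_mul (hc i hi.1).2 ?_ (by positivity) hH0
      refine (pow_le_pow_left₀ (abs_nonneg _) (hslow i hi.2) d).trans ?_
      rw [mul_pow]
      apply mul_le_mul_of_nonneg_left _ (by positivity)
      have h2 := hexpM ((d : ℝ) / 4) (by positivity)
      refine le_trans (le_of_eq ?_) h2
      rw [← Real.exp_nat_mul]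
      ring_nf
    refine (Finset.sum_le_sum h1).trans ?_
    rw [Finset.sum_const, nsmul_eq_mul]
    have h2 : ((I.filter (fun i => ¬ s ≤ i)).card : ℝ) ≤ r := by
      exact_mod_cast (Finset.card_filter_le _ _).trans hI
    have h3 : 0 ≤ H * (|(x : ℝ)| ^ d * M ^ ((d : ℝ) / 4)) := by positivity
    calc _ ≤ (r : ℝ) * (H * (|(x : ℝ)| ^ d * M ^ ((d : ℝ) / 4))) := mul_le_mul_of_nonneg_right h2 h3
      _ = _ := by ring
  -- the comparison
  have hP : M ^ ((d : ℝ) * (1 - ε / 2)) ≤ |A| := by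
    have h1 : M ^ ((d : ℝ) * (1 - ε / 2)) * M ^ ((d : ℝ) * ε / 2) = M ^ d := by
      rw [← Real.rpow_add hM0, ← Real.rpow_natCast]
      ring_nf
    have h2 : 0 < M ^ ((d : ℝ) * ε / 2) := Real.rpow_pos_of_pos hM0 _
    rw [← h1, mul_comm] at hmain
    exact le_of_mul_le_mul_left hmain h2
  have h5 : 2 * M ^ ((d : ℝ) * (1 - ε)) ≤ M ^ ((d : ℝ) * (1 - ε / 2)) := by
    have h1 : M ^ ((d : ℝ) * (1 - ε / 2)) = M ^ ((d : ℝ) * ε / 2) * M ^ ((d : ℝ) * (1 - ε)) := by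
      rw [← Real.rpow_add hM0]; ring_nf
    rw [h1]
    apply mul_le_mul_of_nonneg_right _ (Real.rpow_nonneg hM0.le _)
    refine he5.trans ?_
    exact hexpM ((d : ℝ) * ε / 2) (by positivity)
  have h6 : 2 * |B| ≤ M ^ ((d : ℝ) * (1 - ε / 2)) := by
    have h1 : 2 * (r * H * |(x : ℝ)| ^ d) ≤ M ^ ((d : ℝ) / 4) := he6.trans (hexpM _ (by positivity))
    have h2 : M ^ ((d : ℝ) / 4) * M ^ ((d : ℝ) / 4) ≤ M ^ ((d : ℝ) * (1 - ε / 2)) := by
      rw [← Real.rpow_add hM0]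
      apply Real.rpow_le_rpow_of_exponent_le hM1
      nlinarith
    have h3 : 0 ≤ M ^ ((d : ℝ) / 4) := Real.rpow_nonneg hM0.le _
    calc 2 * |B| ≤ 2 * (r * H * |(x : ℝ)| ^ d * M ^ ((d : ℝ) / 4)) := by linarith
      _ = (2 * (r * H * |(x : ℝ)| ^ d)) * M ^ ((d : ℝ) / 4) := by ring
      _ ≤ M ^ ((d : ℝ) / 4) * M ^ ((d : ℝ) / 4) := mul_le_mul_of_nonneg_right h1 h3
      _ ≤ _ := h2
  intro j hj
  have h7 : |((T^[j] x : ℤ) : ℝ)| ^ ((d : ℝ) * (1 - ε)) ≤ M ^ ((d : ℝ) * (1 - ε)) :=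
    Real.rpow_le_rpow (abs_nonneg _) (hmmax j hj) (by
      have : 0 < 1 - ε := by linarith
      positivity)
  have h8 : |A| - |B| ≤ |A + B| := by
    have := abs_sub_abs_le_abs_sub A (-B)
    rwa [abs_neg, sub_neg_eq_add] at this
  rw [hsum]
  linarith

/-- **Finitely many small sums.** -/
theorem finite (r d : ℕ) (hd : 1 ≤ d) (H m : ℝ) (x : ℤ) (a : ℝ) (ha : 0 < a)
    (hx : ∀ᶠ k : ℕ in atTop, Real.exp (a * k) ≤ |((T^[k] x : ℤ) : ℝ)|) :
    Set.Finite {I : Finset ℕ | I.card ≤ r ∧ ∃ c : ℕ → ℤ, (∀ i ∈ I, c i % 2 = 1 ∧ |(c i : ℝ)| ≤ H) ∧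
      |∑ i ∈ I, (c i : ℝ) * ((T^[i] x : ℤ) : ℝ) ^ d| ≤ m} := by
  obtain ⟨k₀, hk₀⟩ := tail r d hd H (1 / 2) (by norm_num) (by norm_num) x a ha hx
  obtain ⟨k₁, hk₁⟩ := eventually_atTop.1 hx
  have hd1 : (1 : ℝ) ≤ d := by exact_mod_cast hd
  obtain ⟨k₂, hk₂⟩ := exp_ev (m + 1) (a * (d / 2)) (by positivity)
  refine Set.Finite.subset (Finset.finite_toSet (Finset.powerset (range (max k₀ (max k₁ k₂))))) ?_
  rintro I ⟨hI, c, hc, hm⟩
  simp only [Finset.coe_powerset, Set.mem_preimage, Set.mem_powerset_iff]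
  intro q hq
  rw [Finset.mem_coe] at hq
  rw [Finset.mem_coe, mem_range]
  by_contra hlt
  rw [not_lt, max_le_iff, max_le_iff] at hlt
  obtain ⟨h0, h1, h2⟩ := hlt
  have h3 := hk₀ I c hI hc q hq h0 q hq
  have h4 : Real.exp (a * (d / 2) * q) ≤ |((T^[q] x : ℤ) : ℝ)| ^ ((d : ℝ) * (1 - 1 / 2)) := by
    have h5 : Real.exp (a * (d / 2) * q) = Real.exp (a * q) ^ ((d : ℝ) * (1 - 1 / 2)) := by
      rw [← Real.exp_mul]; ring_nf
    rw [h5]
    exact Real.rpow_le_rpow (Real.exp_pos _).le (hk₁ q h1) (by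
      have : (0 : ℝ) < 1 - 1 / 2 := by norm_num
      positivity)
  have h5 := hk₂ q h2
  linarith

end Pool.Agent.H77.Nc
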