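import Pool.Agent.H77.Nc.Sidon
import Pool.Agent.H77.Nc.Rigid
import Pool.Agent.H77.Nc.Tail

set_option autoImplicit false

/-!
# Sidon sets: the first terms, and far windows of divergent trajectories
-/

namespace Pool.Agent.H77.Nc

open Finset Filter Topology

lemma first_above (K : ℝ) (_hK : 0 < K) (x : ℤ) (hx1 : 1 ≤ |(x : ℝ)|) (i : ℕ)
    (h3 : (i : ℝ) ≤ K * Real.log |(x : ℝ)|) :
    |(x : ℝ)| ^ (1 - K * Real.log 2) ≤ |((T^[i] x : ℤ) : ℝ)| := by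
  have hx0 : 0 < |(x : ℝ)| := by linarith
  have hlog : 0 ≤ Real.log |(x : ℝ)| := Real.log_nonneg hx1
  have hl2 : 0 < Real.log 2 := Real.log_pos (by norm_num)
  have h4 := le_iter x i
  have h5 : (2 : ℝ) ^ i ≤ |(x : ℝ)| ^ (K * Real.log 2) := by
    rw [← Real.rpow_natCast, Real.rpow_def_of_pos (by norm_num), Real.rpow_def_of_pos hx0]
    apply Real.exp_le_exp.2
    nlinarith
  have h6 : |(x : ℝ)| ^ (1 - K * Real.log 2) * |(x : ℝ)| ^ (K * Real.log 2) = |(x : ℝ)| := by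
    rw [← Real.rpow_add hx0, sub_add_cancel, Real.rpow_one]
  have h7 : 0 < |(x : ℝ)| ^ (K * Real.log 2) := Real.rpow_pos_of_pos hx0 _
  have h8 : |(x : ℝ)| ^ (1 - K * Real.log 2) * |(x : ℝ)| ^ (K * Real.log 2) ≤
      |((T^[i] x : ℤ) : ℝ)| * |(x : ℝ)| ^ (K * Real.log 2) := by
    rw [h6]
    refine h4.trans ?_
    rw [mul_comm]
    exact mul_le_mul_of_nonneg_left h5 (abs_nonneg _)
  exact le_of_mul_le_mul_right h8 h7

/-- **The first terms of the trajectory of any large integer form a Sidon set.** -/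
theorem firstSidon (d : ℕ) (hd : 1 ≤ d) (K : ℝ) (hK : 0 < K) (hK' : K * Real.log 2 < 1) :
    ∃ N₀ : ℝ, 1 ≤ N₀ ∧ ∀ x : ℤ, N₀ ≤ |(x : ℝ)| →
    ∀ i j k l : ℕ, i ≤ j → (j : ℝ) ≤ K * Real.log |(x : ℝ)| → k ≤ l → (l : ℝ) ≤ K * Real.log |(x : ℝ)| →
    (T^[i] x) ^ d + (T^[j] x) ^ d = (T^[k] x) ^ d + (T^[l] x) ^ d → i = k ∧ j = l := by
  set κ : ℝ := 1 - K * Real.log 2 with hκ
  have hκ0 : 0 < κ := by rw [hκ]; linarith
  obtain ⟨N₀, hN₀, h⟩ := sidon d hd (K / κ)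
  obtain ⟨N₁, hN₁, h1⟩ := const_le N₀ κ hκ0
  refine ⟨N₁, hN₁, ?_⟩
  intro x hx i j k l hij hj hkl hl heq
  have hx1 : 1 ≤ |(x : ℝ)| := hN₁.trans hx
  have hx0 : 0 < |(x : ℝ)| := by linarith
  have hlog : 0 ≤ Real.log |(x : ℝ)| := Real.log_nonneg hx1
  refine h x ⌊K * Real.log |(x : ℝ)|⌋₊ (|(x : ℝ)| ^ κ) (h1 _ hx) ?_ ?_ i j k l hij (Nat.le_floor hj)
    hkl (Nat.le_floor hl) heq
  · rw [Real.log_rpow hx0]
    have h3 : K / κ * (κ * Real.log |(x : ℝ)|) = K * Real.log |(x : ℝ)| := by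
      field_simp
    rw [h3]
    exact Nat.floor_le (by positivity)
  · intro t ht
    have h4 : (t : ℝ) ≤ (⌊K * Real.log |(x : ℝ)|⌋₊ : ℝ) := by exact_mod_cast ht
    exact first_above K hK x hx1 t (h4.trans (Nat.floor_le (by positivity)))

/-- **Far windows of divergent trajectories are Sidon sets.** -/
theorem farSidon (d : ℕ) (hd : 1 ≤ d) (K : ℝ) (x : ℤ) (hx : Divergent x) :
    ∃ q₀ : ℕ, ∀ q ≥ q₀, ∀ n : ℕ, (n : ℝ) ≤ K * Real.log (least x q n) →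
    ∀ i j k l : ℕ, q ≤ i → i ≤ j → j ≤ q + n → q ≤ k → k ≤ l → l ≤ q + n →
    (T^[i] x) ^ d + (T^[j] x) ^ d = (T^[k] x) ^ d + (T^[l] x) ^ d → i = k ∧ j = l := by
  obtain ⟨N₀, hN₀, h⟩ := sidon d hd K
  obtain ⟨q₀, hq₀⟩ := eventually_atTop.1 (hx.eventually_ge_atTop ⌈N₀⌉)
  refine ⟨q₀, ?_⟩
  intro q hq n hn i j k l hqi hij hj hqk hkl hl heq
  have hit : ∀ t, q ≤ t → T^[t - q] (T^[q] x) = T^[t] x := by
    intro t ht
    rw [← Function.iterate_add_apply, Nat.sub_add_cancel ht]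
  have key := h (T^[q] x) n (least x q n) (le_least (by
      intro t h1 _
      have h3 : (⌈N₀⌉ : ℤ) ≤ |T^[t] x| := hq₀ t (by omega)
      have h4 : ((⌈N₀⌉ : ℤ) : ℝ) ≤ |((T^[t] x : ℤ) : ℝ)| := by exact_mod_cast h3
      exact (Int.le_ceil N₀).trans h4)) hn (by
      intro t ht
      rw [← Function.iterate_add_apply]
      exact least_le (by omega) (by omega)) (i - q) (j - q) (k - q) (l - q) (by omega) (by omega)
      (by omega) (by omega) (by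
      rw [hit i hqi, hit j (by omega), hit k hqk, hit l (by omega)]
      exact heq)
  omega

/-- **Small values of linear forms in the first terms of the trajectory of any large integer.** -/
theorem firstGap (r : ℕ) (K ε : ℝ) (hK : 0 < K) (hK' : K * Real.log 2 < 1) (hε : 0 < ε) :
    ∃ δ : ℝ, 0 < δ ∧ ∃ N₀ : ℝ, 1 ≤ N₀ ∧ ∀ x : ℤ, N₀ ≤ |(x : ℝ)| →
    ∀ (n : ℕ) (I : Finset ℕ) (c : ℕ → ℤ), (n : ℝ) ≤ K * Real.log |(x : ℝ)| → I.card ≤ r →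
    (∀ i ∈ I, i ≤ n ∧ |(c i : ℝ)| ≤ |(x : ℝ)| ^ δ) →
    |∑ i ∈ I, (c i : ℝ) * ((T^[i] x : ℤ) : ℝ)| ≤ |(x : ℝ)| ^ (1 - K * Real.log 2 - ε) →
    |∑ i ∈ I, (c i : ℝ) * ((T^[i] x : ℤ) : ℝ)| ≤ |(x : ℝ)| ^ ε ∧
    ∀ y : ℤ, (2 : ℤ) ^ n ∣ y - x → ∑ i ∈ I, c i * T^[i] y = ∑ i ∈ I, c i * T^[i] x := by
  set κ : ℝ := 1 - K * Real.log 2 with hκ
  have hκ0 : 0 < κ := by rw [hκ]; linarith
  have hl2 : 0 < Real.log 2 := Real.log_pos (by norm_num)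
  have hκ1 : κ ≤ 1 := by rw [hκ]; nlinarith
  obtain ⟨δ, hδ, N₀, hN₀, h⟩ := parity r (K / κ) ε hε
  obtain ⟨N₁, hN₁, h1⟩ := const_le N₀ κ hκ0
  refine ⟨κ * δ, by positivity, N₁, hN₁, ?_⟩
  intro x hx n I c hn hI hc hF
  have hx1 : 1 ≤ |(x : ℝ)| := hN₁.trans hx
  have hx0 : 0 < |(x : ℝ)| := by linarith
  have hlog : 0 ≤ Real.log |(x : ℝ)| := Real.log_nonneg hx1
  obtain ⟨h2, h3⟩ := h x n (|(x : ℝ)| ^ κ) (h1 _ hx) (by
    rw [Real.log_rpow hx0]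
    have h3 : K / κ * (κ * Real.log |(x : ℝ)|) = K * Real.log |(x : ℝ)| := by
      field_simp
    rw [h3]
    exact hn) (by
    intro t ht
    have h4 : (t : ℝ) ≤ n := by exact_mod_cast ht
    exact first_above K hK x hx1 t (h4.trans hn)) I c hI (by
    intro i hi
    refine ⟨(hc i hi).1, ?_⟩
    rw [← Real.rpow_mul hx0.le]
    exact (hc i hi).2) (by
    refine hF.trans ?_
    rw [← Real.rpow_mul hx0.le]
    apply Real.rpow_le_rpow_of_exponent_le hx1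
    nlinarith)
  refine ⟨h2.trans ?_, h3⟩
  rw [← Real.rpow_mul hx0.le]
  apply Real.rpow_le_rpow_of_exponent_le hx1
  nlinarith

/-- **Small values of linear forms in the terms of far windows of divergent trajectories.** -/
theorem farGap (r : ℕ) (K ε : ℝ) (hε : 0 < ε) : ∃ δ : ℝ, 0 < δ ∧
    ∀ x : ℤ, Divergent x → ∃ k₀ : ℕ, ∀ k ≥ k₀, ∀ n : ℕ, (n : ℝ) ≤ K * Real.log (least x k n) →
    ∀ (I : Finset ℕ) (c : ℕ → ℤ), I.card ≤ r →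
    (∀ i ∈ I, i ≤ n ∧ |(c i : ℝ)| ≤ least x k n ^ δ) →
    |∑ i ∈ I, (c i : ℝ) * ((T^[k + i] x : ℤ) : ℝ)| ≤ least x k n ^ (1 - ε) →
    |∑ i ∈ I, (c i : ℝ) * ((T^[k + i] x : ℤ) : ℝ)| ≤ least x k n ^ ε ∧
    ∀ y : ℤ, (2 : ℤ) ^ n ∣ y - T^[k] x → ∑ i ∈ I, c i * T^[i] y = ∑ i ∈ I, c i * T^[k + i] x := by
  obtain ⟨δ, hδ, N₀, hN₀, h⟩ := parity r K ε hε
  refine ⟨δ, hδ, ?_⟩
  intro x hx
  obtain ⟨k₀, hk₀⟩ := eventually_atTop.1 (hx.eventually_ge_atTop ⌈N₀⌉)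
  refine ⟨k₀, ?_⟩
  intro k hk n hn I c hI hc hF
  have hit : ∀ i, T^[k + i] x = T^[i] (T^[k] x) := by
    intro i
    rw [add_comm, Function.iterate_add_apply]
  simp only [hit] at hF ⊢
  refine h (T^[k] x) n (least x k n) (le_least (by
      intro t h1 _
      have h3 : (⌈N₀⌉ : ℤ) ≤ |T^[t] x| := hk₀ t (by omega)
      have h4 : ((⌈N₀⌉ : ℤ) : ℝ) ≤ |((T^[t] x : ℤ) : ℝ)| := by exact_mod_cast h3
      exact (Int.le_ceil N₀).trans h4)) hn (by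
      intro t ht
      rw [← hit]
      exact least_le (by omega) (by omega)) I c hI hc hF

end Pool.Agent.H77.Nc
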