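import Pool.Agent.H77.Nc.Short

set_option autoImplicit false

/-!
# Consequences for the first terms and for divergent trajectories
-/

namespace Pool.Agent.H77.Nc

open Finset Filter Topology

lemma abs_T_le (y : ℤ) : |((T y : ℤ) : ℝ)| ≤ 2 * |(y : ℝ)| := by
  have h : |T y| ≤ 2 * |y| := by
    by_cases hy : y % 2 = 0
    · have h1 : 2 * T y = y := by unfold T; rw [if_pos hy]; omega
      have h2 := abs_nonneg y
      have h3 : 2 * |T y| = |y| := by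
        have h4 := congrArg abs h1
        rw [abs_mul] at h4
        simpa using h4
      linarith
    · have h1 : 2 * T y = 3 * y + 1 := by unfold T; rw [if_neg hy]; omega
      have h2 : 1 ≤ |y| := Int.one_le_abs (by rintro rfl; simp at hy)
      have h3 : 2 * |T y| = |3 * y + 1| := by rw [← h1, abs_mul]; norm_num
      have h4 : |3 * y + 1| ≤ |3 * y| + |1| := abs_add_le _ _
      rw [abs_mul] at h4
      norm_num at h4
      linarith
  exact_mod_cast h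

lemma le_abs_T (y : ℤ) : |(y : ℝ)| ≤ 2 * |((T y : ℤ) : ℝ)| := by
  have h : |y| ≤ 2 * |T y| := by
    by_cases hy : y % 2 = 0
    · have h1 : 2 * T y = y := by unfold T; rw [if_pos hy]; omega
      have h3 : 2 * |T y| = |y| := by
        have h4 := congrArg abs h1
        rw [abs_mul] at h4
        simpa using h4
      linarith
    · have h1 : 2 * T y = 3 * y + 1 := by unfold T; rw [if_neg hy]; omega
      have h2 : 1 ≤ |y| := Int.one_le_abs (by rintro rfl; simp at hy)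
      have h3 : 2 * |T y| = |3 * y + 1| := by rw [← h1, abs_mul]; norm_num
      have h4 : |3 * y| - |1| ≤ |3 * y + 1| := by
        have := abs_sub_abs_le_abs_sub (3 * y) (-1)
        rw [abs_neg, sub_neg_eq_add] at this
        exact this
      rw [abs_mul] at h4
      norm_num at h4
      linarith
  exact_mod_cast h

lemma iter_le (x : ℤ) (i : ℕ) : |((T^[i] x : ℤ) : ℝ)| ≤ 2 ^ i * |(x : ℝ)| := by
  induction i with
  | zero => simp
  | succ i ih =>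
    rw [Function.iterate_succ_apply', pow_succ]
    have := abs_T_le (T^[i] x)
    linarith

lemma le_iter (x : ℤ) (i : ℕ) : |(x : ℝ)| ≤ 2 ^ i * |((T^[i] x : ℤ) : ℝ)| := by
  induction i with
  | zero => simp
  | succ i ih =>
    rw [Function.iterate_succ_apply', pow_succ]
    have := le_abs_T (T^[i] x)
    have h2 : (0 : ℝ) < 2 ^ i := by positivity
    nlinarith

/-- **The first terms of the trajectory of any large integer.** -/
theorem first (r d : ℕ) (hd : 1 ≤ d) (K ε : ℝ) (hK : 0 < K) (hK' : K * Real.log 2 < 1) (hε : 0 < ε) :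
    ∃ δ : ℝ, 0 < δ ∧ ∃ N₀ : ℝ, 1 ≤ N₀ ∧
    ∀ x : ℤ, N₀ ≤ |(x : ℝ)| → ∀ (I : Finset ℕ) (c : ℕ → ℤ), I.card ≤ r →
    (∀ i ∈ I, (i : ℝ) ≤ K * Real.log |(x : ℝ)| ∧ c i % 2 = 1 ∧ |(c i : ℝ)| ≤ |(x : ℝ)| ^ δ) → ∀ j ∈ I,
    |((T^[j] x : ℤ) : ℝ)| ^ d ≤ |(x : ℝ)| ^ ε * |∑ i ∈ I, (c i : ℝ) * ((T^[i] x : ℤ) : ℝ) ^ d| := by
  set κ : ℝ := 1 - K * Real.log 2 with hκ
  have hκ0 : 0 < κ := by rw [hκ]; linarith
  have hl2 : 0 < Real.log 2 := Real.log_pos (by norm_num)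
  have hκ1 : κ ≤ 1 := by rw [hκ]; nlinarith
  obtain ⟨δ, hδ, N₀, hN₀, h⟩ := powers r d hd (K / κ) ε hε
  obtain ⟨N₁, hN₁, h1⟩ := const_le N₀ κ hκ0
  refine ⟨κ * δ, by positivity, N₁, hN₁, ?_⟩
  intro x hx I c hI hc j hj
  have hx1 : 1 ≤ |(x : ℝ)| := hN₁.trans hx
  have hx0 : 0 < |(x : ℝ)| := by linarith
  have hlog : 0 ≤ Real.log |(x : ℝ)| := Real.log_nonneg hx1
  have hN := h1 _ hx
  have hN1 : 1 ≤ |(x : ℝ)| ^ κ := hN₀.trans hN
  have key := h x ⌊K * Real.log |(x : ℝ)|⌋₊ (|(x : ℝ)| ^ κ) hN (by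
      rw [Real.log_rpow hx0]
      have h3 : K / κ * (κ * Real.log |(x : ℝ)|) = K * Real.log |(x : ℝ)| := by
        field_simp
      rw [h3]
      exact Nat.floor_le (by positivity)) (by
      intro i hi
      have h3 : (i : ℝ) ≤ K * Real.log |(x : ℝ)| := by
        have h4 : (i : ℝ) ≤ (⌊K * Real.log |(x : ℝ)|⌋₊ : ℝ) := by exact_mod_cast hi
        exact h4.trans (Nat.floor_le (by positivity))
      have h4 := le_iter x i
      have h5 : (2 : ℝ) ^ i ≤ |(x : ℝ)| ^ (1 - κ) := by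
        rw [← Real.rpow_natCast, Real.rpow_def_of_pos (by norm_num), Real.rpow_def_of_pos hx0]
        apply Real.exp_le_exp.2
        rw [hκ]
        nlinarith
      have h6 : |(x : ℝ)| ^ κ * |(x : ℝ)| ^ (1 - κ) = |(x : ℝ)| := by
        rw [← Real.rpow_add hx0, add_sub_cancel, Real.rpow_one]
      have h7 : 0 < |(x : ℝ)| ^ (1 - κ) := Real.rpow_pos_of_pos hx0 _
      have h8 : |(x : ℝ)| ^ κ * |(x : ℝ)| ^ (1 - κ) ≤ |((T^[i] x : ℤ) : ℝ)| * |(x : ℝ)| ^ (1 - κ) := by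
        rw [h6]
        refine h4.trans ?_
        rw [mul_comm]
        exact mul_le_mul_of_nonneg_left h5 (abs_nonneg _)
      exact le_of_mul_le_mul_right h8 h7) I c hI (by
      intro i hi
      obtain ⟨h3, h4, h5⟩ := hc i hi
      refine ⟨Nat.le_floor h3, h4, ?_⟩
      rw [← Real.rpow_mul hx0.le]
      exact h5) j hj
  refine key.trans ?_
  apply mul_le_mul_of_nonneg_right _ (abs_nonneg _)
  rw [← Real.rpow_mul hx0.le]
  apply Real.rpow_le_rpow_of_exponent_le hx1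
  nlinarith

/-- the sum of the terms of a window -/
theorem window (r d : ℕ) (hd : 1 ≤ d) (K ε : ℝ) (hε : 0 < ε) : ∃ δ : ℝ, 0 < δ ∧ ∃ N₀ : ℝ, 1 ≤ N₀ ∧
    ∀ (x : ℤ) (k n : ℕ) (N : ℝ), N₀ ≤ N → (n : ℝ) ≤ K * Real.log N →
    (∀ i, k ≤ i → i ≤ k + n → N ≤ |((T^[i] x : ℤ) : ℝ)|) →
    ∀ (I : Finset ℕ) (c : ℕ → ℤ), I.card ≤ r →
    (∀ i ∈ I, k ≤ i ∧ i ≤ k + n ∧ c i % 2 = 1 ∧ |(c i : ℝ)| ≤ N ^ δ) → ∀ j ∈ I,
    |((T^[j] x : ℤ) : ℝ)| ^ d ≤ N ^ ε * |∑ i ∈ I, (c i : ℝ) * ((T^[i] x : ℤ) : ℝ) ^ d| := by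
  obtain ⟨δ, hδ, N₀, hN₀, h⟩ := powers r d hd K ε hε
  refine ⟨δ, hδ, N₀, hN₀, ?_⟩
  intro x k n N hN hn hab I c hI hc j hj
  have hinj : ∀ a ∈ I, ∀ b ∈ I, a - k = b - k → a = b := by
    intro a ha b hb hab'
    have h1 := (hc a ha).1
    have h2 := (hc b hb).1
    omega
  have hit : ∀ i ∈ I, T^[i - k] (T^[k] x) = T^[i] x := by
    intro i hi
    rw [← Function.iterate_add_apply, Nat.sub_add_cancel (hc i hi).1]
  have key := h (T^[k] x) n N hN hn (by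
      intro i hi
      rw [← Function.iterate_add_apply]
      exact hab (i + k) (by omega) (by omega)) (I.image fun i => i - k) (fun i => c (i + k))
      ((Finset.card_image_le).trans hI) (by
      intro i hi
      rw [mem_image] at hi
      obtain ⟨a, ha, rfl⟩ := hi
      obtain ⟨h1, h2, h3, h4⟩ := hc a ha
      rw [Nat.sub_add_cancel h1]
      exact ⟨by omega, h3, h4⟩) (j - k) (mem_image_of_mem _ hj)
  rw [hit j hj, Finset.sum_image hinj] at key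
  have hs : ∑ i ∈ I, ((c (i - k + k) : ℤ) : ℝ) * ((T^[i - k] (T^[k] x) : ℤ) : ℝ) ^ d =
      ∑ i ∈ I, (c i : ℝ) * ((T^[i] x : ℤ) : ℝ) ^ d := by
    refine Finset.sum_congr rfl fun i hi => ?_
    rw [hit i hi, Nat.sub_add_cancel (hc i hi).1]
  rw [hs] at key
  exact key

/-- the trajectory of `x` is divergent -/
def Divergent (x : ℤ) : Prop := Tendsto (fun k : ℕ => |T^[k] x|) atTop atTop

/-- the least absolute value of the terms `T^k x, …, T^(k+n) x` -/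
noncomputable def least (x : ℤ) (k n : ℕ) : ℝ :=
  (range (n + 1)).inf' ⟨0, by simp⟩ fun i => |((T^[k + i] x : ℤ) : ℝ)|

lemma least_le {x : ℤ} {k n i : ℕ} (h1 : k ≤ i) (h2 : i ≤ k + n) :
    least x k n ≤ |((T^[i] x : ℤ) : ℝ)| := by
  obtain ⟨a, rfl⟩ := Nat.exists_eq_add_of_le h1
  exact Finset.inf'_le (fun i => |((T^[k + i] x : ℤ) : ℝ)|) (by simp; omega)

lemma le_least {x : ℤ} {k n : ℕ} {N : ℝ} (h : ∀ i, k ≤ i → i ≤ k + n → N ≤ |((T^[i] x : ℤ) : ℝ)|) :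
    N ≤ least x k n := by
  unfold least
  rw [Finset.le_inf'_iff]
  intro i hi
  rw [mem_range] at hi
  exact h _ (by omega) (by omega)

/-- **Far windows of divergent trajectories.** -/
theorem far (r d : ℕ) (hd : 1 ≤ d) (K ε : ℝ) (hε : 0 < ε) : ∃ δ : ℝ, 0 < δ ∧
    ∀ x : ℤ, Divergent x → ∃ k₀ : ℕ, ∀ k ≥ k₀, ∀ n : ℕ, (n : ℝ) ≤ K * Real.log (least x k n) →
    ∀ (I : Finset ℕ) (c : ℕ → ℤ), I.card ≤ r →
    (∀ i ∈ I, k ≤ i ∧ i ≤ k + n ∧ c i % 2 = 1 ∧ |(c i : ℝ)| ≤ least x k n ^ δ) → ∀ j ∈ I,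
    |((T^[j] x : ℤ) : ℝ)| ^ d ≤
      least x k n ^ ε * |∑ i ∈ I, (c i : ℝ) * ((T^[i] x : ℤ) : ℝ) ^ d| := by
  obtain ⟨δ, hδ, N₀, hN₀, h⟩ := window r d hd K ε hε
  refine ⟨δ, hδ, ?_⟩
  intro x hx
  obtain ⟨k₀, hk₀⟩ := eventually_atTop.1 (hx.eventually_ge_atTop ⌈N₀⌉)
  refine ⟨k₀, ?_⟩
  intro k hk n hn I c hI hc j hj
  refine h x k n (least x k n) (le_least ?_) hn (fun i h1 h2 => least_le h1 h2) I c hI hc j hj
  intro i h1 _
  have h3 : (⌈N₀⌉ : ℤ) ≤ |T^[i] x| := hk₀ i (by omega)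
  have h4 : ((⌈N₀⌉ : ℤ) : ℝ) ≤ |((T^[i] x : ℤ) : ℝ)| := by exact_mod_cast h3
  exact (Int.le_ceil N₀).trans h4

end Pool.Agent.H77.Nc
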