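import Pool.Agent.H77.Nc.Tr

set_option autoImplicit false

/-!
# No cancellation in forms with few monomials in the terms of a window
-/

namespace Pool.Agent.H77.Nc

open Finset Filter Topology

/-- no exact relation between the units which belong to close monomials -/
def NoRel {m d : ℕ} (ε N : ℝ) (x : ℤ) (p : Fin m → Fin d → ℕ) (c : Fin m → ℤ) : Prop :=
  ∀ J : Finset (Fin m), J.Nonempty →
    (∀ a ∈ J, ∀ b ∈ J, |(∑ j, (p a j : ℝ)) - ∑ j, (p b j : ℝ)| ≤ ε * Real.log N) →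
    ∑ l ∈ J, (c l : ℝ) * ∏ j, ((3 : ℝ) ^ odds x (p l j) / 2 ^ p l j) ≠ 0

lemma prod_ur {d : ℕ} (x : ℤ) (p : Fin d → ℕ) :
    ∏ j, ur (p j) (odds x (p j)) = ur (∑ j, p j) (∑ j, odds x (p j)) := by
  unfold ur
  rw [Finset.prod_div_distrib, Finset.prod_pow_eq_pow_sum, Finset.prod_pow_eq_pow_sum]

lemma logs (B : ℝ) (a : ℝ) (ha : 0 < a) : ∃ N₀ : ℝ, 1 ≤ N₀ ∧ ∀ N : ℝ, N₀ ≤ N →
    B * Real.log N ≤ N ^ a := by
  have h1 : Tendsto (fun N : ℝ => Real.log N / N ^ a) atTop (𝓝 0) :=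
    (isLittleO_log_rpow_atTop ha).tendsto_div_nhds_zero
  have h2 : Tendsto (fun N : ℝ => |B| * (Real.log N / N ^ a)) atTop (𝓝 0) := by
    have := h1.const_mul |B|
    rwa [mul_zero] at this
  obtain ⟨N₀, hN₀⟩ := eventually_atTop.1 (h2.eventually_le_const (show (0 : ℝ) < 1 by norm_num))
  refine ⟨max 1 N₀, le_max_left _ _, ?_⟩
  intro N hN
  have h3 := hN₀ N ((le_max_right _ _).trans hN)
  have hN1 : 1 ≤ N := (le_max_left _ _).trans hN
  have h4 : 0 < N ^ a := Real.rpow_pos_of_pos (by linarith) _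
  have hlog : 0 ≤ Real.log N := Real.log_nonneg hN1
  rw [mul_div_assoc', div_le_one h4] at h3
  exact (mul_le_mul_of_nonneg_right (le_abs_self B) hlog).trans h3

lemma const_le (B : ℝ) (a : ℝ) (ha : 0 < a) : ∃ N₀ : ℝ, 1 ≤ N₀ ∧ ∀ N : ℝ, N₀ ≤ N → B ≤ N ^ a := by
  obtain ⟨N₀, h1, h2⟩ := logs |B| a ha
  refine ⟨max N₀ (Real.exp 1), h1.trans (le_max_left _ _), ?_⟩
  intro N hN
  have h3 := h2 N ((le_max_left _ _).trans hN)
  have h4 : 1 ≤ Real.log N := by
    rw [← Real.log_exp 1]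
    exact Real.log_le_log (Real.exp_pos _) ((le_max_right _ _).trans hN)
  have h5 := le_abs_self B
  have h6 := abs_nonneg B
  nlinarith

/-- **No cancellation in forms of degree `d` with `m` monomials.** -/
theorem forms (m d : ℕ) (K ε : ℝ) (hε : 0 < ε) : ∃ δ : ℝ, 0 < δ ∧ ∃ N₀ : ℝ, 1 ≤ N₀ ∧
    ∀ (x : ℤ) (n : ℕ) (N : ℝ), N₀ ≤ N → (n : ℝ) ≤ K * Real.log N → Above x n N →
    ∀ (p : Fin m → Fin d → ℕ) (c : Fin m → ℤ), (∀ l j, p l j ≤ n) → (∀ l, |(c l : ℝ)| ≤ N ^ δ) →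
    NoRel ε N x p c → ∀ k,
    |∏ j, ((T^[p k j] x : ℤ) : ℝ)| ≤ N ^ ε * |∑ l, (c l : ℝ) * ∏ j, ((T^[p l j] x : ℤ) : ℝ)| := by
  classical
  set K' : ℝ := max K 0 with hK'
  have hK0 : 0 ≤ K' := le_max_right _ _
  set e : ℝ := min ε (1 / 2) with he
  have he0 : 0 < e := lt_min hε (by norm_num)
  have he1 : e ≤ ε := min_le_left _ _
  have he2 : e ≤ 1 / 2 := min_le_right _ _
  obtain ⟨δ₁, hδ₁, N₁, hN₁, hmain⟩ := units m (d * K') (e / 2) (by positivity) (by positivity)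
  obtain ⟨N₂, hN₂, hl2⟩ := logs K' 1 one_pos
  obtain ⟨N₃, hN₃, hl3⟩ := logs (2 * m * 2 ^ d * K') (1 / 2) (by norm_num)
  obtain ⟨N₄, hN₄, hl4⟩ := const_le (2 ^ (d + 1)) (e / 2) (by positivity)
  refine ⟨min δ₁ (1 / 4), lt_min hδ₁ (by norm_num), max (max N₁ N₂) (max N₃ N₄),
    hN₁.trans ((le_max_left _ _).trans (le_max_left _ _)), ?_⟩
  intro x n N hN hn hab p c hp hc hrel k
  have hNN₁ : N₁ ≤ N := ((le_max_left _ _).trans (le_max_left _ _)).trans hN
  have hNN₂ : N₂ ≤ N := ((le_max_right _ _).trans (le_max_left _ _)).trans hN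
  have hNN₃ : N₃ ≤ N := ((le_max_left _ _).trans (le_max_right _ _)).trans hN
  have hNN₄ : N₄ ≤ N := ((le_max_right _ _).trans (le_max_right _ _)).trans hN
  have hN1 : 1 ≤ N := hN₁.trans hNN₁
  have hN0 : 0 < N := by linarith
  have hlog : 0 ≤ Real.log N := Real.log_nonneg hN1
  have hnK : (n : ℝ) ≤ K' * Real.log N := hn.trans (mul_le_mul_of_nonneg_right (le_max_left _ _) hlog)
  have hnN : (n : ℝ) ≤ N := by
    have := hl2 N hNN₂
    rw [Real.rpow_one] at this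
    exact hnK.trans this
  have happ := approx hN1 hnN hab
  set η : ℝ := (n : ℝ) / N with hη
  have hη0 : 0 ≤ η := by positivity
  have hη1 : η ≤ 1 := by rw [hη, div_le_one hN0]; exact hnN
  set I : Fin m → ℕ := fun l => ∑ j, p l j with hI
  set O : Fin m → ℕ := fun l => ∑ j, odds x (p l j) with hO
  set U : Fin m → ℝ := fun l => ur (I l) (O l) with hU
  have hUpos : ∀ l, 0 < U l := fun l => ur_pos _ _
  have hUprod : ∀ l, ∏ j, ur (p l j) (odds x (p l j)) = U l := fun l => prod_ur x (p l)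
  -- the monomials
  have hmono : ∀ l, |∏ j, ((T^[p l j] x : ℤ) : ℝ) - U l * (x : ℝ) ^ d| ≤
      (2 ^ d - 1) * η * (U l * |(x : ℝ)| ^ d) := by
    intro l
    have h1 := prod_approx (univ : Finset (Fin d)) (fun j => ((T^[p l j] x : ℤ) : ℝ))
      (fun j => ur (p l j) (odds x (p l j)) * x) η hη0 hη1 (by
        intro j _
        have h2 := happ (p l j) (hp l j)
        rw [abs_mul, abs_of_pos (ur_pos _ _)]
        refine h2.trans ?_
        apply mul_le_mul_of_nonneg_right _ (mul_nonneg (ur_pos _ _).le (abs_nonneg _))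
        rw [hη]
        apply div_le_div_of_nonneg_right _ hN0.le
        exact_mod_cast hp l j)
    have h3 : ∏ j, (ur (p l j) (odds x (p l j)) * (x : ℝ)) = U l * (x : ℝ) ^ d := by
      rw [Finset.prod_mul_distrib, hUprod]
      simp
    have h4 : ∏ j, |ur (p l j) (odds x (p l j)) * (x : ℝ)| = U l * |(x : ℝ)| ^ d := by
      rw [← Finset.abs_prod, h3, abs_mul, abs_of_pos (hUpos l), abs_pow]
    rw [h3, h4, Finset.card_univ, Fintype.card_fin] at h1
    exact h1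
  set α : ℝ := ∑ l, (c l : ℝ) * U l with hα
  set F : ℝ := ∑ l, (c l : ℝ) * ∏ j, ((T^[p l j] x : ℤ) : ℝ) with hF
  have hxd : 0 ≤ |(x : ℝ)| ^ d := by positivity
  -- the lower bound for `α`
  have hNe : ∀ s : ℝ, N ^ s = Real.exp (s * Real.log N) := by
    intro s
    rw [Real.rpow_def_of_pos hN0, mul_comm]
  have hIn : ∀ l, (I l : ℝ) ≤ d * K' * Real.log N := by
    intro l
    have h1 : I l ≤ d * n := by
      rw [hI]
      dsimp only
      calc ∑ j, p l j ≤ ∑ _j : Fin d, n := Finset.sum_le_sum fun j _ => hp l j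
        _ = d * n := by simp
    calc (I l : ℝ) ≤ ((d * n : ℕ) : ℝ) := by exact_mod_cast h1
      _ = d * n := by push_cast; ring
      _ ≤ d * (K' * Real.log N) := mul_le_mul_of_nonneg_left hnK (Nat.cast_nonneg _)
      _ = _ := by ring
  have hOn : ∀ l, (O l : ℝ) ≤ d * K' * Real.log N := by
    intro l
    have h1 : O l ≤ I l := Finset.sum_le_sum fun j _ => odds_le x (p l j)
    exact le_trans (by exact_mod_cast h1) (hIn l)
  have hlow : ∀ l, U l * N ^ (-(e / 2)) < |α| := by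
    intro l
    have h1 := hmain N hNN₁ I O c hIn hOn (fun l => by
        refine (hc l).trans ?_
        rw [hNe]
        exact Real.exp_le_exp.2 (mul_le_mul_of_nonneg_right (min_le_left _ _) hlog)) (by
      intro J hJ hcl h0
      apply hrel J hJ
      · intro a ha b hb
        have h2 := hcl a ha b hb
        have h3 : |(∑ j, (p a j : ℝ)) - ∑ j, (p b j : ℝ)| ≤ e / 2 * Real.log N := by
          rw [hI] at h2
          push_cast at h2
          exact h2
        refine h3.trans (mul_le_mul_of_nonneg_right ?_ hlog)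
        linarith
      · have h2 : ∑ l ∈ J, (c l : ℝ) * ∏ j, ((3 : ℝ) ^ odds x (p l j) / 2 ^ p l j) =
            ((∑ l ∈ J, (c l : ℚ) * un (I l) (O l) : ℚ) : ℝ) := by
          push_cast
          refine Finset.sum_congr rfl fun l _ => ?_
          rw [ur_un, show ∏ j, ((3 : ℝ) ^ odds x (p l j) / 2 ^ p l j) =
            ∏ j, ur (p l j) (odds x (p l j)) from rfl, hUprod]
        rw [h2, h0, Rat.cast_zero]) l
    have h2 : ((∑ l, (c l : ℚ) * un (I l) (O l) : ℚ) : ℝ) = α := by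
      rw [hα]
      push_cast
      refine Finset.sum_congr rfl fun l _ => ?_
      rw [ur_un]
    rw [h2, ur_un, ← neg_mul, ← hNe] at h1
    exact h1
  -- the error
  have herr : |F - α * (x : ℝ) ^ d| ≤ 1 / 2 * (|α| * |(x : ℝ)| ^ d) := by
    have : Nonempty (Fin m) := ⟨k⟩
    obtain ⟨q, hq⟩ := Finite.exists_max U
    have h1 : F - α * (x : ℝ) ^ d =
        ∑ l, (c l : ℝ) * (∏ j, ((T^[p l j] x : ℤ) : ℝ) - U l * (x : ℝ) ^ d) := by
      rw [hF, hα, Finset.sum_mul, ← Finset.sum_sub_distrib]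
      refine Finset.sum_congr rfl fun l _ => by ring
    rw [h1]
    have h2 : |∑ l, (c l : ℝ) * (∏ j, ((T^[p l j] x : ℤ) : ℝ) - U l * (x : ℝ) ^ d)| ≤
        ∑ _l : Fin m, N ^ (1 / 4 : ℝ) * (2 ^ d * η * (U q * |(x : ℝ)| ^ d)) := by
      refine (Finset.abs_sum_le_sum_abs _ _).trans (Finset.sum_le_sum fun l _ => ?_)
      rw [abs_mul]
      apply mul_le_mul _ _ (abs_nonneg _) (Real.rpow_nonneg hN0.le _)
      · refine (hc l).trans (Real.rpow_le_rpow_of_exponent_le hN1 (min_le_right _ _))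
      · refine (hmono l).trans ?_
        have h3 : (2 ^ d - 1) * η ≤ 2 ^ d * η := by
          apply mul_le_mul_of_nonneg_right _ hη0
          linarith
        exact mul_le_mul h3 (mul_le_mul_of_nonneg_right (hq l) hxd)
          (mul_nonneg (hUpos l).le hxd) (by positivity)
    refine h2.trans ?_
    rw [Finset.sum_const, Finset.card_univ, Fintype.card_fin, nsmul_eq_mul]
    have h3 := hlow q
    have h4 : m * (N ^ (1 / 4 : ℝ) * (2 ^ d * η)) ≤ 1 / 2 * N ^ (-(e / 2)) := by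
      have h5 : 2 * m * 2 ^ d * (n : ℝ) ≤ N ^ (1 / 2 : ℝ) := by
        have h6 := hl3 N hNN₃
        calc 2 * m * 2 ^ d * (n : ℝ) ≤ 2 * m * 2 ^ d * (K' * Real.log N) :=
              mul_le_mul_of_nonneg_left hnK (by positivity)
          _ = 2 * m * 2 ^ d * K' * Real.log N := by ring
          _ ≤ _ := h6
      have h7 : N ^ (-(1 / 4) : ℝ) ≤ N ^ (-(e / 2)) :=
        Real.rpow_le_rpow_of_exponent_le hN1 (by linarith)
      have h8 : N ^ (1 / 4 : ℝ) * N ^ (1 / 2 : ℝ) = N ^ (-(1 / 4) : ℝ) * N := by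
        rw [← Real.rpow_add hN0]
        nth_rewrite 3 [← Real.rpow_one N]
        rw [← Real.rpow_add hN0]
        norm_num
      have h9 : 0 < N ^ (1 / 4 : ℝ) := Real.rpow_pos_of_pos hN0 _
      have h10 : m * (N ^ (1 / 4 : ℝ) * (2 ^ d * η)) =
          1 / 2 * (N ^ (1 / 4 : ℝ) * (2 * m * 2 ^ d * (n : ℝ))) / N := by
        rw [hη]; field_simp
      rw [h10, div_le_iff₀ hN0]
      calc 1 / 2 * (N ^ (1 / 4 : ℝ) * (2 * m * 2 ^ d * (n : ℝ))) ≤
          1 / 2 * (N ^ (1 / 4 : ℝ) * N ^ (1 / 2 : ℝ)) := by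
            apply mul_le_mul_of_nonneg_left _ (by norm_num)
            exact mul_le_mul_of_nonneg_left h5 h9.le
        _ = 1 / 2 * (N ^ (-(1 / 4) : ℝ) * N) := by rw [h8]
        _ ≤ 1 / 2 * (N ^ (-(e / 2)) * N) := by
            apply mul_le_mul_of_nonneg_left _ (by norm_num)
            exact mul_le_mul_of_nonneg_right h7 hN0.le
        _ = _ := by ring
    calc m * (N ^ (1 / 4 : ℝ) * (2 ^ d * η * (U q * |(x : ℝ)| ^ d))) =
        (m * (N ^ (1 / 4 : ℝ) * (2 ^ d * η))) * (U q * |(x : ℝ)| ^ d) := by ring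
      _ ≤ (1 / 2 * N ^ (-(e / 2))) * (U q * |(x : ℝ)| ^ d) :=
          mul_le_mul_of_nonneg_right h4 (mul_nonneg (hUpos q).le hxd)
      _ = 1 / 2 * ((U q * N ^ (-(e / 2))) * |(x : ℝ)| ^ d) := by ring
      _ ≤ 1 / 2 * (|α| * |(x : ℝ)| ^ d) := by
          apply mul_le_mul_of_nonneg_left _ (by norm_num)
          exact mul_le_mul_of_nonneg_right h3.le hxd
  have hFlow : 1 / 2 * (|α| * |(x : ℝ)| ^ d) ≤ |F| := by
    have h1 : |α * (x : ℝ) ^ d| ≤ |F - α * (x : ℝ) ^ d| + |F| := by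
      have := abs_sub_abs_le_abs_sub (α * (x : ℝ) ^ d) F
      rw [abs_sub_comm] at this
      linarith
    rw [abs_mul, abs_pow] at h1
    linarith
  have hkup : |∏ j, ((T^[p k j] x : ℤ) : ℝ)| ≤ 2 ^ d * (U k * |(x : ℝ)| ^ d) := by
    have h1 := hmono k
    have h2 : |∏ j, ((T^[p k j] x : ℤ) : ℝ)| ≤
        |∏ j, ((T^[p k j] x : ℤ) : ℝ) - U k * (x : ℝ) ^ d| + |U k * (x : ℝ) ^ d| := by
      have := abs_add_le (∏ j, ((T^[p k j] x : ℤ) : ℝ) - U k * (x : ℝ) ^ d) (U k * (x : ℝ) ^ d)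
      rwa [sub_add_cancel] at this
    rw [abs_mul, abs_of_pos (hUpos k), abs_pow] at h2
    have h3 : (2 ^ d - 1) * η * (U k * |(x : ℝ)| ^ d) ≤ (2 ^ d - 1) * (U k * |(x : ℝ)| ^ d) := by
      apply mul_le_mul_of_nonneg_right _ (mul_nonneg (hUpos k).le hxd)
      have : (1 : ℝ) ≤ 2 ^ d := one_le_pow₀ (by norm_num)
      nlinarith
    linarith
  have h1 := hlow k
  have h2 := hl4 N hNN₄
  have hpe : 0 < N ^ (e / 2) := Real.rpow_pos_of_pos hN0 _
  have h3 : U k ≤ N ^ (e / 2) * |α| := by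
    have h4 : N ^ (e / 2) * N ^ (-(e / 2)) = 1 := by
      rw [← Real.rpow_add hN0]; simp
    calc U k = N ^ (e / 2) * (U k * N ^ (-(e / 2))) := by
          rw [mul_left_comm, h4, mul_one]
      _ ≤ N ^ (e / 2) * |α| := mul_le_mul_of_nonneg_left h1.le hpe.le
  calc |∏ j, ((T^[p k j] x : ℤ) : ℝ)| ≤ 2 ^ d * (U k * |(x : ℝ)| ^ d) := hkup
    _ ≤ 2 ^ d * ((N ^ (e / 2) * |α|) * |(x : ℝ)| ^ d) := by
        apply mul_le_mul_of_nonneg_left _ (by positivity)
        exact mul_le_mul_of_nonneg_right h3 hxd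
    _ = N ^ (e / 2) * (2 ^ (d + 1) * (1 / 2 * (|α| * |(x : ℝ)| ^ d))) := by rw [pow_succ]; ring
    _ ≤ N ^ (e / 2) * (N ^ (e / 2) * |F|) := by
        apply mul_le_mul_of_nonneg_left _ hpe.le
        exact mul_le_mul h2 hFlow (by positivity) hpe.le
    _ = N ^ e * |F| := by rw [← mul_assoc, ← Real.rpow_add hN0]; congr 2; ring
    _ ≤ N ^ ε * |F| := by
        apply mul_le_mul_of_nonneg_right _ (abs_nonneg _)
        exact Real.rpow_le_rpow_of_exponent_le hN1 he1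

end Pool.Agent.H77.Nc
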