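import Mathlib
import Pool.Graph.R_seed8.TH551.SU.Sui

set_option autoImplicit false

/-!
# Lower bounds for sums of the units `3 ^ o / 2 ^ i` with small coefficients, in terms of germs
-/

namespace Pool.Agent.H77.Nc

open Finset Filter Topology
open Pool.Agent.TH932.Germs Pool.Agent.TH551.SU Pool.Agent.TH461.SST Pool.Agent.TH551.SU.SUI

/-- the unit `3 ^ o / 2 ^ i` -/
def un (i o : ℕ) : ℚ := 3 ^ o / 2 ^ i

lemma un_pos (i o : ℕ) : 0 < un i o := by unfold un; positivity

/-- the primes `2`, `3` -/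
def bb : Fin 2 → ℕ := ![2, 3]

lemma bb_prime : ∀ v, (bb v).Prime := by
  intro v
  fin_cases v
  · exact Nat.prime_two
  · exact Nat.prime_three

lemma bb_inj : Function.Injective bb := by
  intro v w h
  fin_cases v <;> fin_cases w <;> simp_all [bb]

lemma isSU_un (i o : ℕ) : IsSU bb (un i o) := by
  refine ⟨1, ![-(i : ℤ), (o : ℤ)], Or.inl rfl, ?_⟩
  simp only [un, bb, Fin.prod_univ_two, Matrix.cons_val_zero, Matrix.cons_val_one, zpow_neg,
    zpow_natCast, Int.cast_one, one_mul]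
  push_cast
  field_simp

/-- the sum of all coordinates in place of the coordinate `k` -/
def M1 {m : ℕ} (k : Fin m) : Matrix (Fin m) (Fin m) ℤ :=
  fun l j => if l = k then 1 else if l = j then 1 else 0

lemma M1_ne {m : ℕ} (k l : Fin m) (h : l ≠ k) (x : Fin m → ℤ) : ∑ j, M1 k l j * x j = x l := by
  simp [M1, h]

lemma M1_eq {m : ℕ} (k : Fin m) (x : Fin m → ℤ) : ∑ j, M1 k k j * x j = ∑ j, x j := by
  simp [M1]

lemma M1_det {m : ℕ} (k : Fin m) : (M1 k).det ≠ 0 := by
  intro h
  obtain ⟨x, hx, h1⟩ := Matrix.exists_mulVec_eq_zero_iff.2 h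
  apply hx
  have h2 : ∀ l, l ≠ k → x l = 0 := by
    intro l hl
    rw [← M1_ne k l hl x]
    exact congrFun h1 l
  have h3 : ∑ j, x j = 0 := by
    rw [← M1_eq k x]
    exact congrFun h1 k
  have h4 : x k = 0 := by
    rw [← h3]
    rw [Finset.sum_eq_single k (fun j _ hj => h2 j hj) (fun h => absurd (mem_univ _) h)]
  funext l
  by_cases hl : l = k
  · rw [hl]; exact h4
  · exact h2 l hl

lemma gm_sum {ι : Type} (A : Finset ι) (f : ι → ℕ → ℚ) :
    ∑ l ∈ A, gm (f l) = gm (fun n => ∑ l ∈ A, f l n) := by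
  classical
  induction A using Finset.induction_on with
  | empty => simp [gm_zero]
  | insert x A hx ih =>
    rw [Finset.sum_insert hx, ih, gm_add]
    congr 1
    funext n
    rw [Finset.sum_insert hx]

lemma gm_int (y : ℤ) : ((y : ℤ) : GG) = gm (fun _ => (y : ℚ)) := rfl

lemma const_mem {L : ℕ → ℝ} (hL : Tendsto L atTop atTop) (y : ℤ) : gm (fun _ => (y : ℚ)) ∈ KK L hL := by
  rw [← gm_int]
  exact intCast_mem (KK L hL) y

end Pool.Agent.H77.Nc
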