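import Pool.Agent.H77.Nc.Germ

set_option autoImplicit false

/-!
# The lower bound from the subspace theorem
-/

namespace Pool.Agent.H77.Nc

open Finset Filter Topology
open Pool.Agent.TH932.Germs Pool.Agent.TH551.SU Pool.Agent.TH461.SST Pool.Agent.TH551.SU.SUI

/-- the integer `2 ^ E` times the unit -/
def UI {m : ℕ} (i o : Fin m → ℕ → ℕ) (l : Fin m) (t : ℕ) : ℤ :=
  2 ^ (∑ j, i j t - i l t) * 3 ^ (o l t)

lemma UI_eq {m : ℕ} (i o : Fin m → ℕ → ℕ) (l : Fin m) (t : ℕ) :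
    ((UI i o l t : ℤ) : ℚ) = un (i l t) (o l t) * 2 ^ (∑ j, i j t) := by
  have h1 : i l t ≤ ∑ j, i j t := Finset.single_le_sum (f := fun j => i j t) (fun j _ => Nat.zero_le _) (mem_univ l)
  unfold UI un
  push_cast
  rw [div_mul_eq_mul_div, eq_div_iff (by positivity)]
  have h2 : (2 : ℚ) ^ (∑ j, i j t) = 2 ^ (∑ j, i j t - i l t) * 2 ^ (i l t) := by
    rw [← pow_add]; congr 1; omega
  rw [h2]; ring

/-- the good indices -/
structure Gd {m : ℕ} (K ε η : ℝ) (L : ℕ → ℝ) (i o : Fin m → ℕ → ℕ) (kI : Fin m)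
    (C : Fin m → ℕ → ℤ) (D : ℕ → ℤ) (α : Fin m → ℕ → ℚ) (t : ℕ) : Prop where
  big : ∀ l, un (i l t) (o l t) ≤ un (i kI t) (o kI t)
  sm : |((∑ l, α l t * un (i l t) (o l t) : ℚ) : ℝ)| ≤
      ((un (i kI t) (o kI t) : ℚ) : ℝ) * Real.exp (-(ε * L t))
  hi : ∀ l, (i l t : ℝ) ≤ K * L t
  ho : ∀ l, (o l t : ℝ) ≤ K * L t
  cs : ∀ l, |(C l t : ℝ)| ≤ Real.exp (η * L t)
  ds : |(D t : ℝ)| ≤ Real.exp (η * L t)
  c0 : ∀ l, C l t ≠ 0
  ca : ∀ l, (C l t : ℚ) = D t * α l t
  L0 : 0 ≤ L t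

lemma apply_sst' {m : ℕ} {L : ℕ → ℝ} (hL : Tendsto L atTop atTop) (K : ℝ) (hK : 0 ≤ K)
    (i o : Fin m → ℕ → ℕ) (α : Fin m → ℕ → ℚ) (ε : ℝ) (hε : 0 < ε) (kI : Fin m)
    (C : Fin m → ℕ → ℤ) (D : ℕ → ℤ) (ν : ℕ → ℕ) (hν : Tendsto ν atTop atTop)
    (hg : ∀ t, Gd K ε (ε / (4 * ((m : ℝ) + 1))) L i o kI C D α (ν t)) :
    ∃ y : Fin m → ℤ, y ≠ 0 ∧ ∃ᶠ t in atTop, ∑ l : Fin m, y l * (C l (ν t) * UI i o l (ν t)) = 0 := by
  have hm : 1 ≤ m := by have := kI.2; omega
  set η : ℝ := ε / (4 * ((m : ℝ) + 1)) with hη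
  have hη0 : 0 < η := by rw [hη]; positivity
  have hη1 : (m : ℝ) * η ≤ ε / 4 := by
    rw [hη, mul_div_assoc', div_le_div_iff₀ (by positivity) (by norm_num)]
    nlinarith
  have hη2 : η ≤ ε := by
    rw [hη]
    apply div_le_self hε.le
    have : (0 : ℝ) ≤ m := Nat.cast_nonneg m
    linarith
  have hl2 : 0 < Real.log 2 := Real.log_pos (by norm_num)
  have hl3 : 0 < Real.log 3 := Real.log_pos (by norm_num)
  have hl2' : Real.log 2 ≤ 1 := by have := Real.log_two_lt_d9; linarith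
  have hl3' : Real.log 3 ≤ 2 := by
    have := Real.log_le_sub_one_of_pos (show (0 : ℝ) < 3 by norm_num)
    linarith
  have hU1 : ∀ l t, 1 ≤ UI i o l t := by
    intro l t
    unfold UI
    have : (0 : ℤ) < 2 ^ (∑ j, i j t - i l t) * 3 ^ (o l t) := by positivity
    linarith
  have hU1' : ∀ l t, (1 : ℝ) ≤ (UI i o l t : ℤ) := fun l t => by exact_mod_cast hU1 l t
  have hlU : ∀ l t, Real.log ((UI i o l t : ℤ) : ℝ) =
      ((∑ j, i j t - i l t : ℕ) : ℝ) * Real.log 2 + (o l t : ℝ) * Real.log 3 := by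
    intro l t
    unfold UI
    push_cast
    rw [Real.log_mul (by positivity) (by positivity), Real.log_pow, Real.log_pow]
  have hE : ∀ t l, ((∑ j, i j (ν t) - i l (ν t) : ℕ) : ℝ) ≤ m * (K * L (ν t)) := by
    intro t l
    have h1 : ((∑ j, i j (ν t) - i l (ν t) : ℕ) : ℝ) ≤ ((∑ j, i j (ν t) : ℕ) : ℝ) := by
      exact_mod_cast Nat.sub_le _ _
    refine h1.trans ?_
    push_cast
    calc ∑ j, (i j (ν t) : ℝ) ≤ ∑ _j : Fin m, K * L (ν t) := Finset.sum_le_sum fun j _ => (hg t).hi j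
      _ = m * (K * L (ν t)) := by simp
  have hLU : ∀ t l, Real.log ((UI i o l (ν t) : ℤ) : ℝ) ≤ ((m + 2) * K) * L (ν t) := by
    intro t l
    rw [hlU]
    have h1 := hE t l
    have h2 := (hg t).ho l
    have h3 : 0 ≤ K * L (ν t) := mul_nonneg hK (hg t).L0
    have h4 : (0 : ℝ) ≤ ((∑ j, i j (ν t) - i l (ν t) : ℕ) : ℝ) := Nat.cast_nonneg _
    have h5 : (0 : ℝ) ≤ (o l (ν t) : ℝ) := Nat.cast_nonneg _
    have h6 : ((∑ j, i j (ν t) - i l (ν t) : ℕ) : ℝ) * Real.log 2 ≤ m * (K * L (ν t)) * 1 :=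
      mul_le_mul h1 hl2' hl2.le (by positivity)
    have h7 : (o l (ν t) : ℝ) * Real.log 3 ≤ (K * L (ν t)) * 2 := mul_le_mul h2 hl3' hl3.le h3
    nlinarith
  set c : ℝ := (m + 2) * K + 2 * ε + 1 with hc
  have hmK : 0 ≤ ((m : ℝ) + 2) * K := by positivity
  set A : ℕ → Fin m → ℝ := fun t l =>
    if l = kI then Real.exp (η * L (ν t)) * (Real.exp (-(ε * L (ν t))) * ((UI i o l (ν t) : ℤ) : ℝ))
    else Real.exp (η * L (ν t)) * ((UI i o l (ν t) : ℤ) : ℝ) with hA
  have hApos : ∀ t l, 0 < A t l := by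
    intro t l
    have := hU1' l (ν t)
    rw [hA]
    dsimp only
    split_ifs <;> positivity
  have hlA : ∀ t l, Real.log (A t l) = η * L (ν t) + Real.log ((UI i o l (ν t) : ℤ) : ℝ) -
      (if l = kI then ε * L (ν t) else 0) := by
    intro t l
    have h0 := hU1' l (ν t)
    have h0' : ((UI i o l (ν t) : ℤ) : ℝ) ≠ 0 := by linarith
    rw [hA]
    dsimp only
    split_ifs
    · rw [Real.log_mul (Real.exp_pos _).ne' (by positivity),
        Real.log_mul (Real.exp_pos _).ne' h0', Real.log_exp, Real.log_exp]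
      ring
    · rw [Real.log_mul (Real.exp_pos _).ne' h0', Real.log_exp]
      ring
  have key := sst m 2 hm (M1 kI) (fun _ => 1) bb
    ⟨M1_det kI, fun v => by simp, fun v => (bb_prime v).two_le, fun v v' hv =>
      (Nat.coprime_primes (bb_prime v) (bb_prime v')).2 fun h => hv (bb_inj h)⟩ c (ε / 2)
    (by rw [hc]; linarith) (by positivity) (fun t => L (ν t)) (hL.comp hν)
    (fun t v l => if v = 0 then ∑ j, i j (ν t) - i l (ν t) else o l (ν t)) A
    ?_ (fun t l => C l (ν t) * UI i o l (ν t)) ?_ ?_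
  · exact key
  · intro t
    have hLt := (hg t).L0
    refine ⟨?_, hApos t, ?_, ?_⟩
    · intro v l
      have h3 : 0 ≤ K * L (ν t) := mul_nonneg hK hLt
      fin_cases v
      · have h1 := hE t l
        have h6 : ((∑ j, i j (ν t) - i l (ν t) : ℕ) : ℝ) * Real.log 2 ≤ m * (K * L (ν t)) * 1 :=
          mul_le_mul h1 hl2' hl2.le (by positivity)
        show ((∑ j, i j (ν t) - i l (ν t) : ℕ) : ℝ) * Real.log (2 : ℕ) ≤ c * L (ν t)
        push_cast
        rw [hc]
        have h7 : 0 ≤ (2 * K + 2 * ε + 1) * L (ν t) := by positivity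
        nlinarith
      · have h2 := (hg t).ho l
        have h7 : (o l (ν t) : ℝ) * Real.log 3 ≤ (K * L (ν t)) * 2 := mul_le_mul h2 hl3' hl3.le h3
        show (o l (ν t) : ℝ) * Real.log (3 : ℕ) ≤ c * L (ν t)
        push_cast
        rw [hc]
        have h8 : 0 ≤ (m * K + 2 * ε + 1) * L (ν t) := by positivity
        nlinarith
    · intro l
      rw [hlA, abs_le]
      have h1 := hLU t l
      have h2 : 0 ≤ Real.log ((UI i o l (ν t) : ℤ) : ℝ) := Real.log_nonneg (hU1' l (ν t))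
      have h3 : 0 ≤ ε * L (ν t) := by positivity
      have h4 : η * L (ν t) ≤ ε * L (ν t) := mul_le_mul_of_nonneg_right hη2 hLt
      have h5 : 0 ≤ η * L (ν t) := by positivity
      have h6 : 0 ≤ (m + 2) * K * L (ν t) := by positivity
      rw [hc]
      constructor
      · split_ifs <;> nlinarith
      · split_ifs <;> nlinarith
    · simp only [hlA]
      rw [Finset.sum_sub_distrib, Finset.sum_add_distrib, Finset.sum_const, Finset.card_univ,
        Fintype.card_fin, nsmul_eq_mul, Finset.sum_ite_eq' univ kI, if_pos (mem_univ kI)]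
      have h3 : ∑ v : Fin 2, ∑ l : Fin m, (((if v = 0 then ∑ j, i j (ν t) - i l (ν t) else o l (ν t) : ℕ)) : ℝ) *
          Real.log (bb v) = ∑ l, Real.log ((UI i o l (ν t) : ℤ) : ℝ) := by
        rw [Fin.sum_univ_two, ← Finset.sum_add_distrib]
        refine Finset.sum_congr rfl fun l _ => ?_
        rw [hlU]
        simp [bb]
      rw [h3]
      have h4 : (m : ℝ) * (η * L (ν t)) ≤ ε / 4 * L (ν t) := by
        rw [← mul_assoc]
        exact mul_le_mul_of_nonneg_right hη1 hLt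
      nlinarith
  · intro t h0
    have h1 := congrFun h0 kI
    exact mul_ne_zero ((hg t).c0 kI) (by have := hU1 kI (ν t); omega) h1
  · intro t
    constructor
    · intro l
      by_cases hl : l = kI
      · subst hl
        rw [M1_eq]
        have h1 : ((∑ j, C j (ν t) * UI i o j (ν t) : ℤ) : ℝ) =
            (D (ν t) : ℝ) * ((2 : ℝ) ^ (∑ j, i j (ν t)) *
              ((∑ j, α j (ν t) * un (i j (ν t)) (o j (ν t)) : ℚ) : ℝ)) := by
          have h2 : ((∑ j, C j (ν t) * UI i o j (ν t) : ℤ) : ℚ) =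
            (D (ν t) : ℚ) * ((2 : ℚ) ^ (∑ j, i j (ν t)) *
              (∑ j, α j (ν t) * un (i j (ν t)) (o j (ν t)))) := by
            push_cast
            rw [Finset.mul_sum, Finset.mul_sum]
            refine Finset.sum_congr rfl fun j _ => ?_
            rw [(hg t).ca j, UI_eq]
            ring
          have h3 := congrArg (fun q : ℚ => (q : ℝ)) h2
          push_cast at h3 ⊢
          exact h3
        rw [h1, abs_mul, abs_mul]
        have h4 : ((UI i o l (ν t) : ℤ) : ℝ) = ((un (i l (ν t)) (o l (ν t)) : ℚ) : ℝ) * 2 ^ (∑ j, i j (ν t)) := by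
          have h3 := congrArg (fun q : ℚ => (q : ℝ)) (UI_eq i o l (ν t))
          push_cast at h3 ⊢
          exact h3
        have h5 : A t l = Real.exp (η * L (ν t)) * (2 ^ (∑ j, i j (ν t)) *
            (((un (i l (ν t)) (o l (ν t)) : ℚ) : ℝ) * Real.exp (-(ε * L (ν t))))) := by
          rw [hA]
          dsimp only
          rw [if_pos rfl, h4]
          ring
        rw [h5, abs_of_pos (show (0 : ℝ) < 2 ^ (∑ j, i j (ν t)) by positivity)]
        exact mul_le_mul (hg t).ds (mul_le_mul_of_nonneg_left (hg t).sm (by positivity))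
          (by positivity) (Real.exp_pos _).le
      · rw [M1_ne _ _ hl]
        push_cast
        rw [abs_mul]
        have h5 : A t l = Real.exp (η * L (ν t)) * ((UI i o l (ν t) : ℤ) : ℝ) := by
          rw [hA]
          dsimp only
          rw [if_neg hl]
        rw [h5, abs_of_pos (show (0 : ℝ) < ((UI i o l (ν t) : ℤ) : ℝ) by have := hU1' l (ν t); linarith)]
        exact mul_le_mul_of_nonneg_right ((hg t).cs l) (by have := hU1' l (ν t); linarith)
    · intro v l
      have h1 : ∑ j, (1 : Matrix (Fin m) (Fin m) ℤ) l j * (C j (ν t) * UI i o j (ν t)) =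
          C l (ν t) * UI i o l (ν t) := by
        simp [Matrix.one_apply]
      rw [h1]
      apply Dvd.dvd.mul_left
      unfold UI
      fin_cases v
      · exact Dvd.intro _ rfl
      · exact Dvd.intro_left _ rfl

end Pool.Agent.H77.Nc
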