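import Pool.Agent.H77.Nc.Glb

set_option autoImplicit false

/-!
# The lower bound for inequivalent units
-/

namespace Pool.Agent.H77.Nc

open Finset Filter Topology
open Pool.Agent.TH932.Germs Pool.Agent.TH551.SU Pool.Agent.TH461.SST Pool.Agent.TH551.SU.SUI

theorem glb {m : ℕ} {L : ℕ → ℝ} (hL : Tendsto L atTop atTop) (K : ℝ) (hK : 0 ≤ K)
    (i o : Fin m → ℕ → ℕ)
    (hi : ∀ l, ∀ᶠ t in (UU : Filter ℕ), (i l t : ℝ) ≤ K * L t)
    (ho : ∀ l, ∀ᶠ t in (UU : Filter ℕ), (o l t : ℝ) ≤ K * L t)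
    (α : Fin m → ℕ → ℚ) (hα : ∀ l, gm (α l) ∈ KK L hL) (hα0 : ∀ l, gm (α l) ≠ 0)
    (hne : ∀ l l', l ≠ l' →
      gm (fun t => un (i l t) (o l t)) / gm (fun t => un (i l' t) (o l' t)) ∉ KK L hL)
    (ε : ℝ) (hε : 0 < ε) (k : Fin m) :
    ∀ᶠ t in (UU : Filter ℕ), ((un (i k t) (o k t) : ℚ) : ℝ) * Real.exp (-(ε * L t)) <
      |((∑ l, α l t * un (i l t) (o l t) : ℚ) : ℝ)| := by
  classical
  by_contra hcon
  have h1 : ∀ᶠ t in (UU : Filter ℕ), |((∑ l, α l t * un (i l t) (o l t) : ℚ) : ℝ)| ≤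
      ((un (i k t) (o k t) : ℚ) : ℝ) * Real.exp (-(ε * L t)) := by
    filter_upwards [Ultrafilter.eventually_not.2 hcon] with t ht using not_lt.1 ht
  have : Nonempty (Fin m) := ⟨k⟩
  obtain ⟨kI, hkI⟩ : ∃ kI : Fin m, ∀ᶠ t in (UU : Filter ℕ),
      ∀ l, un (i l t) (o l t) ≤ un (i kI t) (o kI t) :=
    const_of_ev (Eventually.of_forall fun t => Finite.exists_max fun l => un (i l t) (o l t))
  have h0 : ∀ l, ∃ M d : ℕ → ℤ, Negl L M ∧ Negl L d ∧ (∀ᶠ n in (UU : Filter ℕ), d n ≠ 0) ∧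
    gm (α l) = gm fun n => (M n : ℚ) / d n := fun l => hα l
  choose M d hM hd hd0 hg using h0
  have hd1 : ∀ᶠ n in (UU : Filter ℕ), ∀ l, d l n ≠ 0 := eventually_all.2 hd0
  have hαe : ∀ᶠ n in (UU : Filter ℕ), ∀ l, α l n = (M l n : ℚ) / d l n :=
    eventually_all.2 fun l => gm_eq.1 (hg l)
  have hM0 : ∀ᶠ n in (UU : Filter ℕ), ∀ l, M l n ≠ 0 := by
    refine eventually_all.2 fun l => ?_
    have h1 := hα0 l
    rw [hg, gm_ne_zero] at h1
    filter_upwards [h1] with n hn h2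
    apply hn
    rw [h2]
    simp
  set D : ℕ → ℤ := fun n => ∏ l, d l n with hD
  set C : Fin m → ℕ → ℤ := fun l n => M l n * ∏ j ∈ Finset.univ.erase l, d j n with hC
  have hDN : Negl L D := Negl.prod hL _ fun j _ => hd j
  have hCN : ∀ l, Negl L (C l) := fun l => (hM l).mul (Negl.prod hL _ fun j _ => hd j)
  have hC0 : ∀ᶠ n in (UU : Filter ℕ), ∀ l, C l n ≠ 0 := by
    filter_upwards [hd1, hM0] with n hn h1 l
    exact mul_ne_zero (h1 l) (Finset.prod_ne_zero_iff.2 fun j _ => hn j)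
  have hCα : ∀ᶠ n in (UU : Filter ℕ), ∀ l, (C l n : ℚ) = D n * α l n := by
    filter_upwards [hd1, hαe] with n hn h2 l
    have h3 : (d l n : ℚ) ≠ 0 := by exact_mod_cast hn l
    rw [h2 l, hD, hC]
    dsimp only
    rw [← Finset.mul_prod_erase _ _ (Finset.mem_univ l)]
    push_cast
    field_simp
  have hD0 : ∀ᶠ n in (UU : Filter ℕ), D n ≠ 0 := by
    filter_upwards [hd1] with n hn
    exact Finset.prod_ne_zero_iff.2 fun j _ => hn j
  set η : ℝ := ε / (4 * ((m : ℝ) + 1)) with hη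
  have hη0 : 0 < η := by rw [hη]; positivity
  have hgood : ∀ᶠ n in (UU : Filter ℕ), Gd K ε η L i o kI C D α n := by
    filter_upwards [hkI, h1, eventually_all.2 hi, eventually_all.2 ho,
      eventually_all.2 (fun l => hCN l η hη0), hDN η hη0, hC0, hCα, L_nonneg hL] with
      n a1 a2 a3 a4 a5 a6 a7 a8 a9
    refine ⟨a1, a2.trans ?_, a3, a4, a5, a6, a7, a8, a9⟩
    apply mul_le_mul_of_nonneg_right _ (Real.exp_pos _).le
    exact_mod_cast a1 k
  -- no fixed relation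
  have hno : ∀ y : Fin m → ℤ, y ≠ 0 → ∀ᶠ n in (UU : Filter ℕ),
      ∑ l : Fin m, y l * (C l n * UI i o l n) ≠ 0 := by
    intro y hy
    by_contra hcon2
    have h2 : ∀ᶠ n in (UU : Filter ℕ), ∑ l : Fin m, y l * (C l n * UI i o l n) = 0 := by
      filter_upwards [Ultrafilter.eventually_not.2 hcon2] with n hn using not_not.1 hn
    apply hy
    have hmem : ∀ l, gm (fun t => (y l : ℚ) * α l t) ∈ KK L hL := by
      intro l
      rw [← gm_mul]
      exact mul_mem (const_mem hL (y l)) (hα l)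
    have h3 : ∑ l : Fin m, (((⟨_, hmem l⟩ : KK L hL)) : GG) *
        gm (fun t => un (i l t) (o l t)) = 0 := by
      have h4 : ∑ l : Fin m, gm (fun t => ((y l : ℚ) * α l t) * un (i l t) (o l t)) = 0 := by
        rw [gm_sum, ← gm_zero, gm_eq]
        filter_upwards [h2, hCα, hD0] with n b1 b2 b3
        have h5 : ((∑ l : Fin m, y l * (C l n * UI i o l n) : ℤ) : ℚ) =
            ((D n : ℚ) * 2 ^ (∑ j, i j n)) * ∑ l, (y l : ℚ) * α l n * un (i l n) (o l n) := by
          push_cast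
          rw [Finset.mul_sum]
          refine Finset.sum_congr rfl fun l _ => ?_
          rw [b2 l, UI_eq]
          ring
        rw [b1, Int.cast_zero] at h5
        have h6 : ((D n : ℚ) * 2 ^ (∑ j, i j n)) ≠ 0 := by
          have : (D n : ℚ) ≠ 0 := by exact_mod_cast b3
          positivity
        exact (mul_eq_zero.1 h5.symm).resolve_left h6
      rw [← h4]
      exact Finset.sum_congr rfl fun l _ => rfl
    have h7 := sui 2 bb bb_prime bb_inj L hL m (fun l => gm (fun t => un (i l t) (o l t)))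
      (fun l => ⟨_, rfl, fun t => isSU_un _ _⟩) hne (fun l => ⟨_, hmem l⟩) h3
    funext l
    have h8 : gm (fun t => (y l : ℚ) * α l t) = 0 := congrArg Subtype.val (h7 l)
    rw [← gm_mul] at h8
    have h9 := (mul_eq_zero.1 h8).resolve_right (hα0 l)
    rw [← gm_zero, gm_eq] at h9
    obtain ⟨n, hn⟩ := h9.exists
    exact_mod_cast hn
  -- the diagonal sequence
  obtain ⟨f, hf⟩ := exists_surjective_nat (Fin m → ℤ)
  have hex : ∀ t : ℕ, ∃ n, t ≤ n ∧ Gd K ε η L i o kI C D α n ∧ ∀ q ≤ t, f q ≠ 0 →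
      ∑ l : Fin m, f q l * (C l n * UI i o l n) ≠ 0 := by
    intro t
    have h1 : ∀ᶠ n in (UU : Filter ℕ), ∀ q ∈ Finset.range (t + 1), f q ≠ 0 →
        ∑ l : Fin m, f q l * (C l n * UI i o l n) ≠ 0 := by
      rw [Finset.eventually_all]
      intro q _
      by_cases h2 : f q = 0
      · exact Eventually.of_forall fun n h3 => absurd h2 h3
      · filter_upwards [hno _ h2] with n hn _ using hn
    have h2 : ∀ᶠ n in (UU : Filter ℕ), t ≤ n := ev_of_atTop (eventually_ge_atTop t)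
    obtain ⟨n, h3, h4, h5⟩ := (h2.and (hgood.and h1)).exists
    exact ⟨n, h3, h4, fun q hq => h5 q (Finset.mem_range_succ_iff.2 hq)⟩
  choose ν hν1 hν2 hν3 using hex
  obtain ⟨y, hy, hfr⟩ := apply_sst' hL K hK i o α ε hε kI C D ν
    (tendsto_atTop_mono hν1 tendsto_id) hν2
  obtain ⟨q, rfl⟩ := hf y
  obtain ⟨t, h1, h2⟩ := (hfr.and_eventually (eventually_ge_atTop q)).exists
  exact hν3 t q h2 hy h1

end Pool.Agent.H77.Nc
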