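import Pool.Agent.H77.Nc.Forms

set_option autoImplicit false

/-!
# Power sums of the terms with odd coefficients
-/

namespace Pool.Agent.H77.Nc

open Finset Filter Topology

/-- the integer behind a sum of units -/
lemma odd_int (J : Finset ℕ) (o : ℕ → ℕ) (c : ℕ → ℤ) (d M : ℕ) (hd : 1 ≤ d) (hM : M ∈ J)
    (hle : ∀ i ∈ J, i ≤ M) (hc : c M % 2 = 1) :
    (∑ i ∈ J, c i * (3 ^ (d * o i) * 2 ^ (d * (M - i)))) % 2 = 1 := by
  rw [← Finset.add_sum_erase _ _ hM, Nat.sub_self, Nat.mul_zero, pow_zero, mul_one]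
  have h1 : (2 : ℤ) ∣ ∑ i ∈ J.erase M, c i * (3 ^ (d * o i) * 2 ^ (d * (M - i))) := by
    apply Finset.dvd_sum
    intro i hi
    rw [mem_erase] at hi
    have h2 : 1 ≤ d * (M - i) := by
      have := hle i hi.2
      have h3 : 1 ≤ M - i := by omega
      exact Nat.mul_le_mul hd h3
    exact Dvd.dvd.mul_left (Dvd.dvd.mul_left (dvd_pow_self 2 (by omega)) _) _
  have h3 : ((3 : ℤ) ^ (d * o M)) % 2 = 1 := Int.odd_iff.1 (Odd.pow (by decide))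
  rw [Int.add_emod, Int.mul_emod, hc, h3, Int.emod_eq_zero_of_dvd h1]
  norm_num

lemma unit_scale (d M i o : ℕ) (h : i ≤ M) :
    ((3 : ℝ) ^ o / 2 ^ i) ^ d * 2 ^ (d * M) = 3 ^ (d * o) * 2 ^ (d * (M - i)) := by
  have h1 : (2 : ℝ) ^ (d * M) = (2 ^ i) ^ d * 2 ^ (d * (M - i)) := by
    rw [← pow_mul, ← pow_add]
    congr 1
    rw [mul_comm i d, ← Nat.mul_add]
    congr 1
    omega
  rw [h1, div_pow, ← mul_assoc, div_mul_cancel₀ _ (by positivity), ← pow_mul, mul_comm o d]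

/-- a sum of units with an odd last coefficient is at least `2 ^ (- d M)` -/
lemma odd_low (J : Finset ℕ) (o : ℕ → ℕ) (c : ℕ → ℤ) (d M : ℕ) (hd : 1 ≤ d) (hM : M ∈ J)
    (hle : ∀ i ∈ J, i ≤ M) (hc : c M % 2 = 1) :
    1 ≤ |∑ i ∈ J, (c i : ℝ) * ((3 : ℝ) ^ o i / 2 ^ i) ^ d| * 2 ^ (d * M) := by
  have h1 := odd_int J o c d M hd hM hle hc
  have h2 : ((∑ i ∈ J, c i * (3 ^ (d * o i) * 2 ^ (d * (M - i))) : ℤ) : ℝ) =
      (∑ i ∈ J, (c i : ℝ) * ((3 : ℝ) ^ o i / 2 ^ i) ^ d) * 2 ^ (d * M) := by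
    push_cast
    rw [Finset.sum_mul]
    refine Finset.sum_congr rfl fun i hi => ?_
    rw [mul_assoc, unit_scale d M i (o i) (hle i hi)]
  have h3 : (∑ i ∈ J, c i * (3 ^ (d * o i) * 2 ^ (d * (M - i)))) ≠ 0 := by
    intro h; rw [h] at h1; norm_num at h1
  have h4 : (1 : ℝ) ≤ |((∑ i ∈ J, c i * (3 ^ (d * o i) * 2 ^ (d * (M - i))) : ℤ) : ℝ)| := by
    exact_mod_cast Int.one_le_abs h3
  rwa [h2, abs_mul, abs_of_pos (show (0 : ℝ) < 2 ^ (d * M) by positivity)] at h4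

lemma odd_ne (J : Finset ℕ) (hJ : J.Nonempty) (o : ℕ → ℕ) (c : ℕ → ℤ) (d : ℕ) (hd : 1 ≤ d)
    (hc : ∀ i ∈ J, c i % 2 = 1) : ∑ i ∈ J, (c i : ℝ) * ((3 : ℝ) ^ o i / 2 ^ i) ^ d ≠ 0 := by
  intro h
  have h1 := odd_low J o c d (J.max' hJ) hd (J.max'_mem hJ) (fun i hi => J.le_max' i hi)
    (hc _ (J.max'_mem hJ))
  rw [h, abs_zero, zero_mul] at h1
  norm_num at h1

/-- exactly `m` terms -/
theorem powers_eq (m d : ℕ) (hd : 1 ≤ d) (K ε : ℝ) (hε : 0 < ε) : ∃ δ : ℝ, 0 < δ ∧ ∃ N₀ : ℝ, 1 ≤ N₀ ∧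
    ∀ (x : ℤ) (n : ℕ) (N : ℝ), N₀ ≤ N → (n : ℝ) ≤ K * Real.log N → Above x n N →
    ∀ (I : Finset ℕ) (c : ℕ → ℤ), I.card = m →
    (∀ i ∈ I, i ≤ n ∧ c i % 2 = 1 ∧ |(c i : ℝ)| ≤ N ^ δ) → ∀ j ∈ I,
    |((T^[j] x : ℤ) : ℝ)| ^ d ≤ N ^ ε * |∑ i ∈ I, (c i : ℝ) * ((T^[i] x : ℤ) : ℝ) ^ d| := by
  classical
  obtain ⟨δ, hδ, N₀, hN₀, h⟩ := forms m d K ε hε
  refine ⟨δ, hδ, N₀, hN₀, ?_⟩
  intro x n N hN hn hab I c hcard hI j hj
  let f : Fin m → ℕ := I.orderEmbOfFin hcard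
  have hfinj : Function.Injective f := (I.orderEmbOfFin hcard).injective
  have hfmem : ∀ l, f l ∈ I := fun l => Finset.orderEmbOfFin_mem _ _ _
  have hfim : univ.image f = I := Finset.image_orderEmbOfFin_univ I hcard
  have hsum : ∀ F : ℕ → ℝ, ∑ i ∈ I, F i = ∑ l, F (f l) := by
    intro F
    have h1 : ∑ i ∈ univ.image f, F i = ∑ l, F (f l) := Finset.sum_image (fun a _ b _ h => hfinj h)
    rw [← h1, hfim]
  have hj' : j ∈ univ.image f := by rw [hfim]; exact hj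
  rw [mem_image] at hj'
  obtain ⟨k, _, hk⟩ := hj'
  have key := h x n N hN hn hab (fun l _ => f l) (fun l => c (f l)) (fun l _ => (hI _ (hfmem l)).1)
    (fun l => (hI _ (hfmem l)).2.2) (by
      intro J hJ _ h0
      have h2 : ∑ i ∈ J.image f, (c i : ℝ) * ((3 : ℝ) ^ odds x i / 2 ^ i) ^ d = 0 := by
        rw [Finset.sum_image (fun a _ b _ h => hfinj h), ← h0]
        refine Finset.sum_congr rfl fun l _ => ?_
        simp only [Finset.prod_const, Finset.card_univ, Fintype.card_fin]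
      exact odd_ne (J.image f) (hJ.image f) (odds x) c d hd (by
        intro i hi
        rw [mem_image] at hi
        obtain ⟨l, _, rfl⟩ := hi
        exact (hI _ (hfmem l)).2.1) h2) k
  simp only [Finset.prod_const, Finset.card_univ, Fintype.card_fin] at key
  rw [hk, abs_pow] at key
  rw [hsum]
  exact key

/-- **Power sums of at most `r` terms with odd coefficients.** -/
theorem powers (r d : ℕ) (hd : 1 ≤ d) (K ε : ℝ) (hε : 0 < ε) : ∃ δ : ℝ, 0 < δ ∧ ∃ N₀ : ℝ, 1 ≤ N₀ ∧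
    ∀ (x : ℤ) (n : ℕ) (N : ℝ), N₀ ≤ N → (n : ℝ) ≤ K * Real.log N → Above x n N →
    ∀ (I : Finset ℕ) (c : ℕ → ℤ), I.card ≤ r →
    (∀ i ∈ I, i ≤ n ∧ c i % 2 = 1 ∧ |(c i : ℝ)| ≤ N ^ δ) → ∀ j ∈ I,
    |((T^[j] x : ℤ) : ℝ)| ^ d ≤ N ^ ε * |∑ i ∈ I, (c i : ℝ) * ((T^[i] x : ℤ) : ℝ) ^ d| := by
  induction r with
  | zero =>
    refine ⟨1, one_pos, 1, le_rfl, ?_⟩
    intro x n N _ _ _ I c hI _ j hj
    rw [Nat.le_zero, Finset.card_eq_zero] at hI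
    rw [hI] at hj
    simp at hj
  | succ r ih =>
    obtain ⟨δ₁, hδ₁, N₁, hN₁, h1⟩ := ih
    obtain ⟨δ₂, hδ₂, N₂, hN₂, h2⟩ := powers_eq (r + 1) d hd K ε hε
    refine ⟨min δ₁ δ₂, lt_min hδ₁ hδ₂, max N₁ N₂, hN₁.trans (le_max_left _ _), ?_⟩
    intro x n N hN hn hab I c hI hc j hj
    have hN1 : 1 ≤ N := hN₁.trans ((le_max_left _ _).trans hN)
    rcases Nat.lt_or_ge I.card (r + 1) with h3 | h3
    · exact h1 x n N ((le_max_left _ _).trans hN) hn hab I c (by omega) (fun i hi =>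
        ⟨(hc i hi).1, (hc i hi).2.1, (hc i hi).2.2.trans
          (Real.rpow_le_rpow_of_exponent_le hN1 (min_le_left _ _))⟩) j hj
    · exact h2 x n N ((le_max_right _ _).trans hN) hn hab I c (by omega) (fun i hi =>
        ⟨(hc i hi).1, (hc i hi).2.1, (hc i hi).2.2.trans
          (Real.rpow_le_rpow_of_exponent_le hN1 (min_le_right _ _))⟩) j hj

end Pool.Agent.H77.Nc
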