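import Pool.Agent.H77.Nc.Pow

set_option autoImplicit false

/-!
# Short windows: sums of all the terms with coefficients `0`, `1`, `-1`
-/

namespace Pool.Agent.H77.Nc

open Finset Filter Topology

lemma ur_le (x : ℤ) {i n : ℕ} (h : i ≤ n) : ur i (odds x i) ≤ (3 / 2) ^ n := by
  have h1 : ur i (odds x i) ≤ (3 / 2) ^ i := by
    unfold ur
    rw [div_pow]
    apply div_le_div_of_nonneg_right _ (by positivity)
    exact pow_le_pow_right₀ (by norm_num) (odds_le x i)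
  exact h1.trans (pow_le_pow_right₀ (by norm_num) h)

/-- **Signed sums of `d`-th powers of arbitrarily many terms of a short window.** -/
theorem short (d : ℕ) (hd : 1 ≤ d) (ε : ℝ) (hε : 0 < ε) : ∃ N₀ : ℝ, 1 ≤ N₀ ∧
    ∀ (x : ℤ) (n : ℕ) (N : ℝ), N₀ ≤ N → d * n * Real.log 3 ≤ (1 - ε) * Real.log N → Above x n N →
    ∀ c : ℕ → ℤ, (∀ i ≤ n, c i = 0 ∨ c i = 1 ∨ c i = -1) → (∃ i ≤ n, c i ≠ 0) →
    |(x : ℝ)| ^ d ≤ 2 ^ (d * n + 1) *
      |∑ i ∈ range (n + 1), (c i : ℝ) * ((T^[i] x : ℤ) : ℝ) ^ d| := by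
  classical
  obtain ⟨N₁, hN₁, hl1⟩ := logs (2 ^ (d + 2)) (ε / 2) (by positivity)
  obtain ⟨N₂, hN₂, hl2⟩ := logs 1 1 one_pos
  refine ⟨max (max N₁ N₂) (Real.exp 1), hN₁.trans ((le_max_left _ _).trans (le_max_left _ _)), ?_⟩
  intro x n N hN hn hab c hc hex
  have hNN₁ : N₁ ≤ N := ((le_max_left _ _).trans (le_max_left _ _)).trans hN
  have hNN₂ : N₂ ≤ N := ((le_max_right _ _).trans (le_max_left _ _)).trans hN
  have hNe : Real.exp 1 ≤ N := (le_max_right _ _).trans hN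
  have hN1 : 1 ≤ N := hN₁.trans hNN₁
  have hN0 : 0 < N := by linarith
  have hlog1 : 1 ≤ Real.log N := by
    rw [← Real.log_exp 1]; exact Real.log_le_log (Real.exp_pos _) hNe
  have hl3 : 1 ≤ Real.log 3 := by
    have h1 := Real.add_one_le_exp (1 : ℝ)
    rw [← Real.log_exp 1]
    apply Real.log_le_log (Real.exp_pos _)
    have := Real.exp_one_lt_d9
    linarith
  have hd1 : (1 : ℝ) ≤ d := by exact_mod_cast hd
  have hn0 : (0 : ℝ) ≤ n := Nat.cast_nonneg _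
  have hnlog : (n : ℝ) ≤ Real.log N := by
    have h1 : (n : ℝ) ≤ d * n * Real.log 3 := by
      have h2 : (n : ℝ) ≤ d * n := by nlinarith
      nlinarith
    have h3 : (1 - ε) * Real.log N ≤ Real.log N := by nlinarith
    linarith
  have hnN : (n : ℝ) ≤ N := by
    have := hl2 N hNN₂
    rw [Real.rpow_one, one_mul] at this
    linarith
  have happ := approx hN1 hnN hab
  set J := (range (n + 1)).filter fun i => c i ≠ 0 with hJ
  have hJne : J.Nonempty := by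
    obtain ⟨i, hi, h⟩ := hex
    exact ⟨i, by rw [hJ, mem_filter, mem_range]; exact ⟨by omega, h⟩⟩
  set M := J.max' hJne with hMdef
  have hMJ : M ∈ J := J.max'_mem hJne
  have hJn : ∀ i ∈ J, i ≤ n := by
    intro i hi
    rw [hJ, mem_filter, mem_range] at hi
    omega
  have hJc : ∀ i ∈ J, c i = 1 ∨ c i = -1 := by
    intro i hi
    have h1 := hJn i hi
    rw [hJ, mem_filter] at hi
    rcases hc i h1 with h | h | h
    · exact absurd h hi.2
    · exact Or.inl h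
    · exact Or.inr h
  have hMn : M ≤ n := hJn M hMJ
  have hlow := odd_low J (odds x) c d M hd hMJ (fun i hi => J.le_max' i hi) (by
    rcases hJc M hMJ with h | h <;> rw [h] <;> norm_num)
  set α : ℝ := ∑ i ∈ J, (c i : ℝ) * ((3 : ℝ) ^ odds x i / 2 ^ i) ^ d with hα
  have hF : ∑ i ∈ range (n + 1), (c i : ℝ) * ((T^[i] x : ℤ) : ℝ) ^ d =
      ∑ i ∈ J, (c i : ℝ) * ((T^[i] x : ℤ) : ℝ) ^ d := by
    rw [hJ, Finset.sum_filter]
    refine Finset.sum_congr rfl fun i _ => ?_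
    split_ifs with h
    · rfl
    · rw [not_not] at h
      rw [h]; simp
  rw [hF]
  set F : ℝ := ∑ i ∈ J, (c i : ℝ) * ((T^[i] x : ℤ) : ℝ) ^ d with hFdef
  set η : ℝ := (n : ℝ) / N with hη
  have hη0 : 0 ≤ η := by positivity
  have hη1 : η ≤ 1 := by rw [hη, div_le_one hN0]; exact hnN
  have hxd : 0 ≤ |(x : ℝ)| ^ d := by positivity
  have hmono : ∀ i ∈ J, |(c i : ℝ) * ((T^[i] x : ℤ) : ℝ) ^ d -
      (c i : ℝ) * ((3 : ℝ) ^ odds x i / 2 ^ i) ^ d * (x : ℝ) ^ d| ≤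
      2 ^ d * η * ((3 / 2) ^ (d * n) * |(x : ℝ)| ^ d) := by
    intro i hi
    have h1 := prod_approx (univ : Finset (Fin d)) (fun _ => ((T^[i] x : ℤ) : ℝ))
      (fun _ => ur i (odds x i) * x) η hη0 hη1 (by
        intro j _
        have h2 := happ i (hJn i hi)
        rw [abs_mul, abs_of_pos (ur_pos _ _)]
        refine h2.trans ?_
        apply mul_le_mul_of_nonneg_right _ (mul_nonneg (ur_pos _ _).le (abs_nonneg _))
        rw [hη]
        apply div_le_div_of_nonneg_right _ hN0.le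
        exact_mod_cast hJn i hi)
    simp only [Finset.prod_const, Finset.card_univ, Fintype.card_fin] at h1
    have h2 : |(c i : ℝ)| = 1 := by
      rcases hJc i hi with h | h <;> rw [h] <;> simp
    have h3 : (c i : ℝ) * ((T^[i] x : ℤ) : ℝ) ^ d -
        (c i : ℝ) * ((3 : ℝ) ^ odds x i / 2 ^ i) ^ d * (x : ℝ) ^ d =
        c i * (((T^[i] x : ℤ) : ℝ) ^ d - (ur i (odds x i) * x) ^ d) := by
      unfold ur; rw [mul_pow]; ring
    rw [h3, abs_mul, h2, one_mul]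
    refine h1.trans ?_
    have h4 : |ur i (odds x i) * (x : ℝ)| ^ d ≤ (3 / 2) ^ (d * n) * |(x : ℝ)| ^ d := by
      rw [abs_mul, abs_of_pos (ur_pos _ _), mul_pow, mul_comm d n, pow_mul]
      apply mul_le_mul_of_nonneg_right _ hxd
      exact pow_le_pow_left₀ (ur_pos _ _).le (ur_le x (hJn i hi)) d
    have h5 : (2 ^ d - 1) * η ≤ 2 ^ d * η := by
      apply mul_le_mul_of_nonneg_right _ hη0
      linarith
    exact mul_le_mul h5 h4 (by positivity) (by positivity)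
  have herr : |F - α * (x : ℝ) ^ d| ≤ (n + 1) * (2 ^ d * η * ((3 / 2) ^ (d * n) * |(x : ℝ)| ^ d)) := by
    have h1 : F - α * (x : ℝ) ^ d = ∑ i ∈ J, ((c i : ℝ) * ((T^[i] x : ℤ) : ℝ) ^ d -
        (c i : ℝ) * ((3 : ℝ) ^ odds x i / 2 ^ i) ^ d * (x : ℝ) ^ d) := by
      rw [hFdef, hα, Finset.sum_mul, ← Finset.sum_sub_distrib]
    rw [h1]
    refine (Finset.abs_sum_le_sum_abs _ _).trans ((Finset.sum_le_sum hmono).trans ?_)
    rw [Finset.sum_const, nsmul_eq_mul]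
    apply mul_le_mul_of_nonneg_right _ (by positivity)
    have h2 : J.card ≤ n + 1 := by
      rw [hJ]
      exact (Finset.card_filter_le _ _).trans (by simp)
    exact_mod_cast h2
  -- the error is small
  have hsmall : (n + 1) * (2 ^ d * η * ((3 : ℝ) / 2) ^ (d * n)) * 2 ^ (d * n) ≤ 1 / 2 := by
    have h1 : ((3 : ℝ) / 2) ^ (d * n) * 2 ^ (d * n) = 3 ^ (d * n) := by
      rw [← mul_pow]; norm_num
    have h2 : (3 : ℝ) ^ (d * n) ≤ N ^ (1 - ε) := by
      rw [Real.rpow_def_of_pos hN0, ← Real.rpow_natCast, Real.rpow_def_of_pos (by norm_num)]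
      apply Real.exp_le_exp.2
      push_cast
      linarith
    have h3 : 2 ^ (d + 1) * ((n + 1) * (n : ℝ)) ≤ N ^ ε := by
      have h4 := hl1 N hNN₁
      have h5 : (n + 1) * (n : ℝ) ≤ 2 * (Real.log N * Real.log N) := by nlinarith
      have h6 : (0 : ℝ) < 2 ^ d := by positivity
      have h7 : 2 ^ (d + 1) * ((n + 1) * (n : ℝ)) ≤ (2 ^ (d + 2) * Real.log N) * (2 ^ (d + 2) * Real.log N) := by
        have e1 : (2 ^ (d + 2) * Real.log N) * (2 ^ (d + 2) * Real.log N) =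
            (2 ^ (d + 1) * (2 * (Real.log N * Real.log N))) * (2 ^ d * 4) := by ring
        rw [e1]
        have h8 : 2 ^ (d + 1) * ((n + 1) * (n : ℝ)) ≤ 2 ^ (d + 1) * (2 * (Real.log N * Real.log N)) :=
          mul_le_mul_of_nonneg_left h5 (by positivity)
        have h9 : (1 : ℝ) ≤ 2 ^ d * 4 := by
          have : (1 : ℝ) ≤ 2 ^ d := one_le_pow₀ (by norm_num)
          linarith
        have h10 : 0 ≤ 2 ^ (d + 1) * (2 * (Real.log N * Real.log N)) := by positivity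
        nlinarith
      have h8 : (2 ^ (d + 2) * Real.log N) * (2 ^ (d + 2) * Real.log N) ≤ N ^ (ε / 2) * N ^ (ε / 2) :=
        mul_le_mul h4 h4 (by positivity) (Real.rpow_nonneg hN0.le _)
      rw [← Real.rpow_add hN0, add_halves] at h8
      exact h7.trans h8
    have h4 : (n + 1) * (2 ^ d * η * ((3 : ℝ) / 2) ^ (d * n)) * 2 ^ (d * n) =
        (1 / 2) * ((2 ^ (d + 1) * ((n + 1) * (n : ℝ))) * 3 ^ (d * n)) / N := by
      rw [← h1, hη]; field_simp; ring
    rw [h4, div_le_iff₀ hN0]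
    have h5 : (2 ^ (d + 1) * ((n + 1) * (n : ℝ))) * 3 ^ (d * n) ≤ N ^ ε * N ^ (1 - ε) :=
      mul_le_mul h3 h2 (by positivity) (Real.rpow_nonneg hN0.le _)
    rw [← Real.rpow_add hN0, add_sub_cancel, Real.rpow_one] at h5
    linarith
  have hlow' : 1 ≤ |α| * 2 ^ (d * n) := by
    refine hlow.trans ?_
    apply mul_le_mul_of_nonneg_left _ (abs_nonneg _)
    exact pow_le_pow_right₀ (by norm_num) (Nat.mul_le_mul_left d hMn)
  have h1 : |α| * |(x : ℝ)| ^ d ≤ |F - α * (x : ℝ) ^ d| + |F| := by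
    have := abs_sub_abs_le_abs_sub (α * (x : ℝ) ^ d) F
    rw [abs_sub_comm, abs_mul, abs_pow] at this
    linarith
  have hp : (0 : ℝ) < 2 ^ (d * n) := by positivity
  have h2 : (n + 1) * (2 ^ d * η * ((3 / 2) ^ (d * n) * |(x : ℝ)| ^ d)) * 2 ^ (d * n) ≤
      1 / 2 * |(x : ℝ)| ^ d := by
    have e1 : (n + 1) * (2 ^ d * η * ((3 / 2) ^ (d * n) * |(x : ℝ)| ^ d)) * 2 ^ (d * n) =
        ((n + 1) * (2 ^ d * η * ((3 : ℝ) / 2) ^ (d * n)) * 2 ^ (d * n)) * |(x : ℝ)| ^ d := by ring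
    rw [e1]
    exact mul_le_mul_of_nonneg_right hsmall hxd
  have h3 : |(x : ℝ)| ^ d ≤ (|α| * |(x : ℝ)| ^ d) * 2 ^ (d * n) := by
    calc |(x : ℝ)| ^ d = 1 * |(x : ℝ)| ^ d := (one_mul _).symm
      _ ≤ (|α| * 2 ^ (d * n)) * |(x : ℝ)| ^ d := mul_le_mul_of_nonneg_right hlow' hxd
      _ = _ := by ring
  have h4 : (|α| * |(x : ℝ)| ^ d) * 2 ^ (d * n) ≤
      ((n + 1) * (2 ^ d * η * ((3 / 2) ^ (d * n) * |(x : ℝ)| ^ d)) + |F|) * 2 ^ (d * n) :=
    mul_le_mul_of_nonneg_right (h1.trans (by linarith)) hp.le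
  rw [pow_succ]
  nlinarith

end Pool.Agent.H77.Nc
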