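import Pool.Agent.H77.Nc.Pow

set_option autoImplicit false

/-!
# The terms of a window form a Sidon set
-/

namespace Pool.Agent.H77.Nc

open Finset Filter Topology

lemma two_three {a b a' b' : ℕ} (h : 2 ^ a * 3 ^ b = 2 ^ a' * 3 ^ b') : a = a' ∧ b = b' := by
  have key : ∀ a b : ℕ, (2 ^ a * 3 ^ b).factorization 2 = a ∧ (2 ^ a * 3 ^ b).factorization 3 = b := by
    intro a b
    rw [Nat.factorization_mul (by positivity) (by positivity), Nat.factorization_pow,
      Nat.factorization_pow, Nat.Prime.factorization Nat.prime_two,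
      Nat.Prime.factorization Nat.prime_three]
    constructor <;> simp
  have h1 := key a b
  have h2 := key a' b'
  rw [h] at h1
  exact ⟨h1.1.symm.trans h2.1, h1.2.symm.trans h2.2⟩

/-- `u_k ^ d = 2 u_i ^ d` -/
lemma pair_case (x : ℤ) (d k i : ℕ) (hd : 1 ≤ d)
    (h : ((3 : ℝ) ^ odds x k / 2 ^ k) ^ d = 2 * ((3 : ℝ) ^ odds x i / 2 ^ i) ^ d) :
    d = 1 ∧ ((T^[k] x : ℤ) : ℝ) = 2 * ((T^[i] x : ℤ) : ℝ) := by
  rw [div_pow, div_pow, ← mul_div_assoc, div_eq_div_iff (by positivity) (by positivity),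
    ← pow_mul, ← pow_mul, ← pow_mul, ← pow_mul] at h
  have h1 : 2 ^ (i * d) * 3 ^ (odds x k * d) = 2 ^ (k * d + 1) * 3 ^ (odds x i * d) := by
    have h2 : ((2 ^ (i * d) * 3 ^ (odds x k * d) : ℕ) : ℝ) =
        ((2 ^ (k * d + 1) * 3 ^ (odds x i * d) : ℕ) : ℝ) := by
      push_cast
      rw [pow_succ]
      linarith
    exact_mod_cast h2
  obtain ⟨h2, h3⟩ := two_three h1
  have h4 : d ∣ 1 := by
    have h5 : d ∣ k * d + 1 := h2 ▸ Dvd.intro_left i rfl
    exact (Nat.dvd_add_right (Dvd.intro_left k rfl)).1 h5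
  have hd1 : d = 1 := Nat.dvd_one.1 h4
  subst hd1
  refine ⟨rfl, ?_⟩
  rw [mul_one, mul_one] at h2 h3
  subst h2
  rw [odds_succ] at h3
  have h5 : T^[k] x % 2 = 0 := by
    by_contra h6
    rw [if_neg h6] at h3
    omega
  rw [Function.iterate_succ_apply', T_even h5]
  ring

/-- `u_k ^ d + u_l ^ d = 2 u_i ^ d` with `k < l` -/
lemma triple_case (x : ℤ) (d k l i : ℕ) (hd : 1 ≤ d) (hkl : k < l) (hki : k ≠ i) (hli : l ≠ i)
    (h : ((3 : ℝ) ^ odds x k / 2 ^ k) ^ d + ((3 : ℝ) ^ odds x l / 2 ^ l) ^ d =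
      2 * ((3 : ℝ) ^ odds x i / 2 ^ i) ^ d) :
    d = 1 ∧ ((T^[k] x : ℤ) : ℝ) + ((T^[l] x : ℤ) : ℝ) ≠ 2 * ((T^[i] x : ℤ) : ℝ) := by
  classical
  rcases lt_or_gt_of_ne hli with hlt | hlt
  · -- `l < i`
    have hk := unit_scale d i k (odds x k) (by omega)
    have hl := unit_scale d i l (odds x l) (by omega)
    have hi := unit_scale d i i (odds x i) le_rfl
    have h1 : 3 ^ (d * odds x k) * 2 ^ (d * (i - k)) + 3 ^ (d * odds x l) * 2 ^ (d * (i - l)) =
        2 * 3 ^ (d * odds x i) := by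
      have h2 : ((3 ^ (d * odds x k) * 2 ^ (d * (i - k)) + 3 ^ (d * odds x l) * 2 ^ (d * (i - l)) : ℕ) : ℝ) =
          ((2 * 3 ^ (d * odds x i) : ℕ) : ℝ) := by
        push_cast
        rw [← hk, ← hl, ← add_mul, h, mul_assoc, hi, Nat.sub_self, Nat.mul_zero, pow_zero, mul_one]
      exact_mod_cast h2
    have hsmall : d * (i - l) < 2 := by
      by_contra hge
      have e1 : 4 ∣ 3 ^ (d * odds x l) * 2 ^ (d * (i - l)) :=
        Dvd.dvd.mul_left (pow_dvd_pow 2 (show 2 ≤ d * (i - l) by omega)) _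
      have e2 : 4 ∣ 3 ^ (d * odds x k) * 2 ^ (d * (i - k)) := by
        have : d * (i - l) ≤ d * (i - k) := Nat.mul_le_mul_left d (by omega)
        exact Dvd.dvd.mul_left (pow_dvd_pow 2 (show 2 ≤ d * (i - k) by omega)) _
      have e3 : 4 ∣ 2 * 3 ^ (d * odds x i) := h1 ▸ Nat.dvd_add e2 e1
      have e4 : 2 ∣ 3 ^ (d * odds x i) := Nat.dvd_of_mul_dvd_mul_left (by norm_num : 0 < 2) e3
      have e5 := Nat.prime_two.dvd_of_dvd_pow e4
      norm_num at e5
    have h2 : 1 ≤ i - l := by omega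
    have h3 : d = 1 ∧ i = l + 1 := by
      have h4 : d * 1 ≤ d * (i - l) := Nat.mul_le_mul_left d h2
      have h5 : 1 * (i - l) ≤ d * (i - l) := Nat.mul_le_mul_right _ hd
      constructor <;> omega
    obtain ⟨rfl, rfl⟩ := h3
    refine ⟨rfl, ?_⟩
    simp only [one_mul] at h1
    have h4 : l + 1 - l = 1 := by omega
    rw [h4, pow_one] at h1
    have h5 := odds_succ x l
    by_cases hev : T^[l] x % 2 = 0
    · exfalso
      rw [if_pos hev, add_zero] at h5
      rw [h5] at h1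
      have h6 : 0 < 3 ^ odds x k * 2 ^ (l + 1 - k) := by positivity
      omega
    · rw [if_neg hev] at h5
      rw [h5, pow_succ] at h1
      have h6 : 2 ^ (l + 1 - k) * 3 ^ odds x k = 2 ^ 2 * 3 ^ odds x l := by linarith
      obtain ⟨h7, h8⟩ := two_three h6
      have h9 : l = k + 1 := by omega
      subst h9
      rw [odds_succ] at h8
      have h10 : T^[k] x % 2 = 0 := by
        by_contra h6
        rw [if_neg h6] at h8
        omega
      have e1 := T_even h10
      rw [← Function.iterate_succ_apply' T] at e1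
      have e2 := T_odd hev
      rw [← Function.iterate_succ_apply' T] at e2
      rw [e2]
      intro h11
      rw [e1] at h11
      linarith
  · -- `i < l`
    exfalso
    have h1 := odd_low {k, l, i} (odds x) (fun t => if t = i then -2 else 1) d l hd (by simp) (by
      intro t ht
      simp only [mem_insert, mem_singleton] at ht
      omega) (by
      simp only [if_neg hli]
      norm_num)
    rw [Finset.sum_insert (by simp; omega), Finset.sum_insert (by simp; omega), Finset.sum_singleton,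
      if_neg hki, if_neg hli, if_pos rfl] at h1
    push_cast at h1
    have h2 : (1 : ℝ) * ((3 : ℝ) ^ odds x k / 2 ^ k) ^ d + (1 * ((3 : ℝ) ^ odds x l / 2 ^ l) ^ d +
        -2 * ((3 : ℝ) ^ odds x i / 2 ^ i) ^ d) = 0 := by linarith
    rw [h2, abs_zero, zero_mul] at h1
    norm_num at h1

/-- no three `d`-th powers of terms of a window are in arithmetic progression -/
theorem noAP (d : ℕ) (hd : 1 ≤ d) (K : ℝ) : ∃ N₀ : ℝ, 1 ≤ N₀ ∧
    ∀ (x : ℤ) (n : ℕ) (N : ℝ), N₀ ≤ N → (n : ℝ) ≤ K * Real.log N → Above x n N →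
    ∀ k l i, k < l → l ≤ n → i ≤ n → k ≠ i → l ≠ i →
    ((T^[k] x : ℤ) : ℝ) ^ d + ((T^[l] x : ℤ) : ℝ) ^ d ≠ 2 * ((T^[i] x : ℤ) : ℝ) ^ d := by
  classical
  obtain ⟨δ, hδ, N₀, hN₀, h⟩ := forms 3 d K 1 one_pos
  obtain ⟨N₁, hN₁, h1⟩ := const_le 2 δ hδ
  refine ⟨max N₀ N₁, hN₀.trans (le_max_left _ _), ?_⟩
  intro x n N hN hn hab k l i hkl hl hi hki hli heq
  have hNN₀ : N₀ ≤ N := (le_max_left _ _).trans hN
  have hN1 : 1 ≤ N := hN₀.trans hNN₀
  have h2 : 2 ≤ N ^ δ := h1 N ((le_max_right _ _).trans hN)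
  have hpos : ∀ t ≤ n, ((T^[t] x : ℤ) : ℝ) ≠ 0 := by
    intro t ht h0
    have := hab t ht
    rw [h0, abs_zero] at this
    linarith
  have hnr : ¬ NoRel 1 N x (fun (t : Fin 3) (_ : Fin d) => ![k, l, i] t) ![1, 1, -2] := by
    intro hnr
    have key := h x n N hNN₀ hn hab (fun (t : Fin 3) (_ : Fin d) => ![k, l, i] t) ![1, 1, -2] (by
      intro t _
      fin_cases t <;> simp <;> omega) (by
      intro t
      fin_cases t
      · simp; linarith
      · simp; linarith
      · simp; linarith) hnr 0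
    simp only [Finset.prod_const, Finset.card_univ, Fintype.card_fin, Fin.sum_univ_three,
      Matrix.cons_val_zero, Matrix.cons_val_one, Matrix.cons_val] at key
    push_cast at key
    have h3 : (1 : ℝ) * ((T^[k] x : ℤ) : ℝ) ^ d + 1 * ((T^[l] x : ℤ) : ℝ) ^ d +
        -2 * ((T^[i] x : ℤ) : ℝ) ^ d = 0 := by linarith
    rw [h3, abs_zero, mul_zero] at key
    have h4 : 0 < |((T^[k] x : ℤ) : ℝ) ^ d| := abs_pos.2 (pow_ne_zero _ (hpos k (by omega)))
    linarith
  unfold NoRel at hnr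
  push Not at hnr
  obtain ⟨J, hJ, _, hsum⟩ := hnr
  have hs : ∑ t ∈ J, ((![1, 1, -2] t : ℤ) : ℝ) * ∏ _j : Fin d, ((3 : ℝ) ^ odds x (![k, l, i] t) / 2 ^ (![k, l, i] t)) =
      (if 0 ∈ J then ((3 : ℝ) ^ odds x k / 2 ^ k) ^ d else 0) +
      (if 1 ∈ J then ((3 : ℝ) ^ odds x l / 2 ^ l) ^ d else 0) -
      (if 2 ∈ J then 2 * ((3 : ℝ) ^ odds x i / 2 ^ i) ^ d else 0) := by
    have e : ∀ f : Fin 3 → ℝ, ∑ t ∈ J, f t = ∑ t, if t ∈ J then f t else 0 := by
      intro f
      rw [Finset.sum_ite_mem, Finset.univ_inter]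
    rw [e, Fin.sum_univ_three]
    simp only [Finset.prod_const, Finset.card_univ, Fintype.card_fin,
      Matrix.cons_val_zero, Matrix.cons_val_one, Matrix.cons_val]
    push_cast
    split_ifs <;> ring
  rw [hs] at hsum
  have pk : 0 < ((3 : ℝ) ^ odds x k / 2 ^ k) ^ d := by positivity
  have pl : 0 < ((3 : ℝ) ^ odds x l / 2 ^ l) ^ d := by positivity
  have pi' : 0 < ((3 : ℝ) ^ odds x i / 2 ^ i) ^ d := by positivity
  by_cases h0 : (0 : Fin 3) ∈ J <;> by_cases h1' : (1 : Fin 3) ∈ J <;> by_cases h2' : (2 : Fin 3) ∈ J <;>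
    simp only [h0, h1', h2', if_true, if_false] at hsum
  · obtain ⟨rfl, h5⟩ := triple_case x d k l i hd hkl hki hli (by linarith)
    simp only [pow_one] at heq
    exact h5 heq
  · linarith
  · obtain ⟨rfl, h5⟩ := pair_case x d k i hd (by linarith)
    simp only [pow_one] at heq
    exact hpos l hl (by linarith)
  · linarith
  · obtain ⟨rfl, h5⟩ := pair_case x d l i hd (by linarith)
    simp only [pow_one] at heq
    exact hpos k (by omega) (by linarith)
  · linarith
  · linarith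
  · obtain ⟨t, ht⟩ := hJ
    fin_cases t
    · exact h0 ht
    · exact h1' ht
    · exact h2' ht

/-- **The `d`-th powers of the terms of a window form a Sidon set.** -/
theorem sidon (d : ℕ) (hd : 1 ≤ d) (K : ℝ) : ∃ N₀ : ℝ, 1 ≤ N₀ ∧
    ∀ (x : ℤ) (n : ℕ) (N : ℝ), N₀ ≤ N → (n : ℝ) ≤ K * Real.log N → Above x n N →
    ∀ i j k l, i ≤ j → j ≤ n → k ≤ l → l ≤ n →
    (T^[i] x) ^ d + (T^[j] x) ^ d = (T^[k] x) ^ d + (T^[l] x) ^ d → i = k ∧ j = l := by
  classical
  obtain ⟨δ, hδ, N₀, hN₀, h⟩ := powers 4 d hd K 1 one_pos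
  obtain ⟨N₁, hN₁, h1⟩ := noAP d hd K
  refine ⟨max N₀ N₁, hN₀.trans (le_max_left _ _), ?_⟩
  intro x n N hN hn hab
  have hNN₀ : N₀ ≤ N := (le_max_left _ _).trans hN
  have hNN₁ : N₁ ≤ N := (le_max_right _ _).trans hN
  have hN1 : 1 ≤ N := hN₀.trans hNN₀
  have hδ1 : 1 ≤ N ^ δ := Real.one_le_rpow hN1 hδ.le
  have hpos : ∀ t ≤ n, ((T^[t] x : ℤ) : ℝ) ≠ 0 := by
    intro t ht h0
    have := hab t ht
    rw [h0, abs_zero] at this
    linarith
  -- sums with coefficients `1`, `-1` do not vanish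
  have key : ∀ (I P : Finset ℕ), I.card ≤ 4 → I.Nonempty → (∀ t ∈ I, t ≤ n) →
      ∑ t ∈ I, (((if t ∈ P then 1 else -1 : ℤ)) : ℝ) * ((T^[t] x : ℤ) : ℝ) ^ d ≠ 0 := by
    intro I P hI hne hIn h0
    obtain ⟨t, ht⟩ := hne
    have h2 := h x n N hNN₀ hn hab I (fun t => if t ∈ P then 1 else -1) hI (by
      intro s hs
      refine ⟨hIn s hs, ?_, ?_⟩
      · split_ifs <;> norm_num
      · split_ifs <;> simpa using hδ1) t ht
    rw [h0, abs_zero, mul_zero] at h2
    have h3 : 0 < |((T^[t] x : ℤ) : ℝ)| ^ d := pow_pos (abs_pos.2 (hpos t (hIn t ht))) _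
    linarith
  -- two different terms
  have two : ∀ s t, s ≠ t → s ≤ n → t ≤ n → (T^[s] x) ^ d ≠ (T^[t] x) ^ d := by
    intro s t hst hs ht heq
    have heq' : ((T^[s] x : ℤ) : ℝ) ^ d = ((T^[t] x : ℤ) : ℝ) ^ d := by exact_mod_cast heq
    apply key {s, t} {s} (by rw [Finset.card_pair hst]; norm_num) (by simp) (by
      intro a ha
      simp only [mem_insert, mem_singleton] at ha
      rcases ha with rfl | rfl <;> assumption)
    rw [Finset.sum_pair hst, if_pos (by simp), if_neg (by simpa using hst.symm), heq']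
    push_cast
    ring
  -- four different terms
  have four : ∀ i j k l, i ≠ j → i ≠ k → i ≠ l → j ≠ k → j ≠ l → k ≠ l → i ≤ n → j ≤ n → k ≤ n →
      l ≤ n → (T^[i] x) ^ d + (T^[j] x) ^ d ≠ (T^[k] x) ^ d + (T^[l] x) ^ d := by
    intro i j k l hij hik hil hjk hjl hkl hi hj hk hl heq
    have heq' : ((T^[i] x : ℤ) : ℝ) ^ d + ((T^[j] x : ℤ) : ℝ) ^ d =
        ((T^[k] x : ℤ) : ℝ) ^ d + ((T^[l] x : ℤ) : ℝ) ^ d := by exact_mod_cast heq
    apply key {i, j, k, l} {i, j} (by
        refine (Finset.card_insert_le _ _).trans ?_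
        have := Finset.card_insert_le j {k, l}
        have := Finset.card_insert_le k {l}
        simp only [Finset.card_singleton] at this
        omega) (by simp) (by
      intro a ha
      simp only [mem_insert, mem_singleton] at ha
      rcases ha with rfl | rfl | rfl | rfl <;> assumption)
    rw [Finset.sum_insert (by simp; tauto), Finset.sum_insert (by simp; tauto),
      Finset.sum_pair hkl, if_pos (by simp), if_pos (by simp), if_neg (by simp; tauto),
      if_neg (by simp; tauto)]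
    push_cast
    linarith
  have ap : ∀ k l i, k < l → l ≤ n → i ≤ n → k ≠ i → l ≠ i →
      (T^[k] x) ^ d + (T^[l] x) ^ d ≠ (T^[i] x) ^ d + (T^[i] x) ^ d := by
    intro k l i hkl hl hi hki hli heq
    have heq' : ((T^[k] x : ℤ) : ℝ) ^ d + ((T^[l] x : ℤ) : ℝ) ^ d =
        ((T^[i] x : ℤ) : ℝ) ^ d + ((T^[i] x : ℤ) : ℝ) ^ d := by exact_mod_cast heq
    exact h1 x n N hNN₁ hn hab k l i hkl hl hi hki hli (by linarith)
  intro i j k l hij hj hkl hl heq
  by_cases hik : i = k
  · subst hik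
    refine ⟨rfl, ?_⟩
    by_contra hjl
    exact two j l hjl hj hl (by linarith)
  by_cases hjl : j = l
  · subst hjl
    exfalso
    exact two i k hik (by omega) (by omega) (by linarith)
  exfalso
  by_cases hil : i = l
  · subst hil
    exact two j k (by omega) hj (by omega) (by linarith)
  by_cases hjk : j = k
  · subst hjk
    exact two i l hil (by omega) hl (by linarith)
  rcases Nat.lt_or_ge i j with hij' | hij'
  · rcases Nat.lt_or_ge k l with hkl' | hkl'
    · exact four i j k l (by omega) hik hil hjk hjl (by omega) (by omega) hj (by omega) hl heq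
    · have : k = l := by omega
      subst this
      exact ap i j k hij' hj hl hik hjk heq
  · have : i = j := by omega
    subst this
    rcases Nat.lt_or_ge k l with hkl' | hkl'
    · exact ap k l i hkl' hl hj (by omega) (by omega) heq.symm
    · have : k = l := by omega
      subst this
      exact two i k hik hj hl (by linarith)

end Pool.Agent.H77.Nc
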