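import Pool.Agent.H77.Nc.Uni

set_option autoImplicit false

/-!
# Windows of trajectories of the `3x+1` map whose terms are large
-/

namespace Pool.Agent.H77.Nc

open Finset Filter Topology

/-- the `3x+1` map -/
def T (x : ℤ) : ℤ := if x % 2 = 0 then x / 2 else (3 * x + 1) / 2

/-- the number of the odd terms among `x, T x, …, T ^ (i - 1) x` -/
def odds (x : ℤ) (i : ℕ) : ℕ := ((range i).filter fun j => T^[j] x % 2 ≠ 0).card

/-- the terms `x, T x, …, T ^ n x` have absolute value at least `N` -/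
def Above (x : ℤ) (n : ℕ) (N : ℝ) : Prop := ∀ i ≤ n, N ≤ |((T^[i] x : ℤ) : ℝ)|

lemma odds_zero (x : ℤ) : odds x 0 = 0 := by simp [odds]

lemma odds_succ (x : ℤ) (i : ℕ) : odds x (i + 1) = odds x i + if T^[i] x % 2 = 0 then 0 else 1 := by
  unfold odds
  rw [Finset.range_add_one, Finset.filter_insert]
  by_cases h : T^[i] x % 2 = 0
  · rw [if_neg (by simpa using h), if_pos h, add_zero]
  · rw [if_pos h, if_neg h, Finset.card_insert_of_notMem (by simp)]

lemma odds_le (x : ℤ) (i : ℕ) : odds x i ≤ i := by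
  unfold odds
  exact (Finset.card_filter_le _ _).trans (by simp)

/-- the real number `3 ^ o / 2 ^ i` -/
noncomputable def ur (i o : ℕ) : ℝ := 3 ^ o / 2 ^ i

lemma ur_pos (i o : ℕ) : 0 < ur i o := by unfold ur; positivity

lemma ur_un (i o : ℕ) : ((un i o : ℚ) : ℝ) = ur i o := by unfold un ur; push_cast; rfl

lemma T_even {y : ℤ} (h : y % 2 = 0) : ((T y : ℤ) : ℝ) = y / 2 := by
  have h1 : 2 * T y = y := by unfold T; rw [if_pos h]; omega
  have h2 : (2 : ℝ) * (T y : ℤ) = y := by exact_mod_cast h1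
  linarith

lemma T_odd {y : ℤ} (h : ¬ y % 2 = 0) : ((T y : ℤ) : ℝ) = (3 * y + 1) / 2 := by
  have h1 : 2 * T y = 3 * y + 1 := by unfold T; rw [if_neg h]; omega
  have h2 : (2 : ℝ) * (T y : ℤ) = 3 * y + 1 := by exact_mod_cast h1
  linarith

/-- in a window of large terms the terms are near to `3 ^ o / 2 ^ i` times the first one -/
lemma approx {x : ℤ} {n : ℕ} {N : ℝ} (hN : 1 ≤ N) (hn : (n : ℝ) ≤ N) (h : Above x n N) :
    ∀ i ≤ n, |((T^[i] x : ℤ) : ℝ) - ur i (odds x i) * x| ≤ (i : ℝ) / N * (ur i (odds x i) * |(x : ℝ)|) := by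
  intro i
  induction i with
  | zero => intro _; simp [ur, odds_zero]
  | succ i ih =>
    intro hi
    have h1 := ih (by omega)
    have h2 := h i (by omega)
    have hN0 : 0 < N := by linarith
    have hu := ur_pos i (odds x i)
    have hiN : (i : ℝ) ≤ N := le_trans (by exact_mod_cast (by omega : i ≤ n)) hn
    have h3 : (i : ℝ) / N ≤ 1 := by rw [div_le_one hN0]; exact hiN
    have h3' : 0 ≤ (i : ℝ) / N := by positivity
    have hux : 0 ≤ ur i (odds x i) * |(x : ℝ)| := by positivity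
    have h4 : N ≤ 2 * (ur i (odds x i) * |(x : ℝ)|) := by
      have h5 : |((T^[i] x : ℤ) : ℝ)| ≤ |((T^[i] x : ℤ) : ℝ) - ur i (odds x i) * x| +
          |ur i (odds x i) * (x : ℝ)| := by
        have := abs_add_le (((T^[i] x : ℤ) : ℝ) - ur i (odds x i) * x) (ur i (odds x i) * x)
        rwa [sub_add_cancel] at this
      rw [abs_mul, abs_of_pos hu] at h5
      nlinarith
    have h6 : ((i + 1 : ℕ) : ℝ) / N = i / N + 1 / N := by push_cast; ring
    rw [Function.iterate_succ_apply', odds_succ, h6]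
    by_cases hp : T^[i] x % 2 = 0
    · rw [if_pos hp, add_zero, T_even hp]
      have h7 : ur (i + 1) (odds x i) = ur i (odds x i) / 2 := by unfold ur; rw [pow_succ]; field_simp
      rw [h7]
      have h8 : ((T^[i] x : ℤ) : ℝ) / 2 - ur i (odds x i) / 2 * x =
          (((T^[i] x : ℤ) : ℝ) - ur i (odds x i) * x) / 2 := by ring
      rw [h8, abs_div, abs_of_pos (show (0 : ℝ) < 2 by norm_num)]
      have h9 : 0 ≤ 1 / N * (ur i (odds x i) / 2 * |(x : ℝ)|) := by positivity
      nlinarith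
    · rw [if_neg hp, T_odd hp]
      have h7 : ur (i + 1) (odds x i + 1) = ur i (odds x i) * 3 / 2 := by
        unfold ur; rw [pow_succ, pow_succ]; field_simp
      rw [h7]
      have h8 : (3 * ((T^[i] x : ℤ) : ℝ) + 1) / 2 - ur i (odds x i) * 3 / 2 * x =
          3 / 2 * (((T^[i] x : ℤ) : ℝ) - ur i (odds x i) * x) + 1 / 2 := by ring
      rw [h8]
      have h9 : |3 / 2 * (((T^[i] x : ℤ) : ℝ) - ur i (odds x i) * x) + 1 / 2| ≤
          3 / 2 * |((T^[i] x : ℤ) : ℝ) - ur i (odds x i) * x| + 1 / 2 := by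
        refine (abs_add_le _ _).trans ?_
        rw [abs_mul, abs_of_pos (show (0 : ℝ) < 3 / 2 by norm_num), abs_of_pos (show (0 : ℝ) < 1 / 2 by norm_num)]
      have h10 : 1 / 2 ≤ 1 / N * (ur i (odds x i) * 3 / 2 * |(x : ℝ)|) := by
        rw [one_div_mul_eq_div, le_div_iff₀ hN0]
        nlinarith
      nlinarith

/-- products of approximately equal factors -/
lemma prod_approx {ι : Type} (s : Finset ι) (a b : ι → ℝ) (η : ℝ) (h0 : 0 ≤ η) (h1 : η ≤ 1)
    (h : ∀ i ∈ s, |a i - b i| ≤ η * |b i|) :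
    |∏ i ∈ s, a i - ∏ i ∈ s, b i| ≤ (2 ^ s.card - 1) * η * ∏ i ∈ s, |b i| := by
  classical
  induction s using Finset.induction_on with
  | empty => simp
  | insert j s hj ih =>
    have h2 := ih fun i hi => h i (mem_insert_of_mem hi)
    have h3 := h j (mem_insert_self _ _)
    rw [prod_insert hj, prod_insert hj, prod_insert hj, card_insert_of_notMem hj, pow_succ]
    set A := ∏ i ∈ s, a i
    set B := ∏ i ∈ s, b i
    have hB : |B| = ∏ i ∈ s, |b i| := Finset.abs_prod _ _
    rw [← hB] at h2 ⊢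
    have hp : (1 : ℝ) ≤ 2 ^ s.card := one_le_pow₀ (by norm_num)
    have e : a j * A - b j * B = (a j - b j) * A + b j * (A - B) := by ring
    rw [e]
    have hA : |A| ≤ 2 ^ s.card * |B| := by
      have h5 : |A| ≤ |A - B| + |B| := by
        have := abs_add_le (A - B) B
        rwa [sub_add_cancel] at this
      have h6 : (2 ^ s.card - 1) * η * |B| ≤ (2 ^ s.card - 1) * |B| := by
        apply mul_le_mul_of_nonneg_right _ (abs_nonneg _)
        nlinarith
      linarith
    calc |(a j - b j) * A + b j * (A - B)| ≤ |a j - b j| * |A| + |b j| * |A - B| := by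
          refine (abs_add_le _ _).trans ?_
          rw [abs_mul, abs_mul]
      _ ≤ (η * |b j|) * (2 ^ s.card * |B|) + |b j| * ((2 ^ s.card - 1) * η * |B|) :=
          add_le_add (mul_le_mul h3 hA (abs_nonneg _) (by positivity))
            (mul_le_mul_of_nonneg_left h2 (abs_nonneg _))
      _ = (2 ^ s.card * 2 - 1) * η * (|b j| * |B|) := by ring

end Pool.Agent.H77.Nc
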