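import Pool.Agent.H77.Nc.Cls

set_option autoImplicit false

/-!
# Sums of units `3 ^ o / 2 ^ i` with small coefficients: the uniform lower bound
-/

namespace Pool.Agent.H77.Nc

open Finset Filter Topology
open Pool.Agent.TH932.Germs Pool.Agent.TH551.SU Pool.Agent.TH461.SST Pool.Agent.TH551.SU.SUI

lemma cop23 (a b : ℕ) : IsCoprime ((2 : ℤ) ^ a) (3 ^ b) := by
  apply IsCoprime.pow
  exact ⟨-1, 1, by norm_num⟩

lemma ratio_arith {i o i' o' : ℕ} {M d : ℤ} (hd : d ≠ 0) (h : un i o / un i' o' = (M : ℚ) / d) :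
    (2 : ℝ) ^ ((i : ℤ) - i').natAbs ≤ max |(M : ℝ)| |(d : ℝ)| := by
  have hdq : (d : ℚ) ≠ 0 := by exact_mod_cast hd
  have h1 : (3 : ℚ) ^ o * 2 ^ i' * d = M * 3 ^ o' * 2 ^ i := by
    unfold un at h
    field_simp at h
    linarith
  have h2 : (3 : ℤ) ^ o * 2 ^ i' * d = M * 3 ^ o' * 2 ^ i := by exact_mod_cast h1
  have hM : M ≠ 0 := by
    rintro rfl
    rw [zero_mul, zero_mul] at h2
    have : (3 : ℤ) ^ o * 2 ^ i' * d ≠ 0 := mul_ne_zero (by positivity) hd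
    exact this h2
  rcases le_total i' i with hii | hii
  · obtain ⟨a, rfl⟩ := Nat.exists_eq_add_of_le hii
    have h3 : (3 : ℤ) ^ o * d = M * 3 ^ o' * 2 ^ a := by
      have h4 : (2 : ℤ) ^ i' * (3 ^ o * d) = 2 ^ i' * (M * 3 ^ o' * 2 ^ a) := by
        rw [pow_add] at h2; linarith
      exact mul_left_cancel₀ (by positivity) h4
    have h5 : (2 : ℤ) ^ a ∣ d := by
      have h6 : (2 : ℤ) ^ a ∣ 3 ^ o * d := ⟨M * 3 ^ o', by rw [h3]; ring⟩
      exact (cop23 a o).dvd_of_dvd_mul_left h6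
    have h7 := abs_le_of_dvd h5 hd
    have h8 : (((i' + a : ℕ) : ℤ) - i').natAbs = a := by push_cast; omega
    rw [h8]
    refine le_trans ?_ (le_max_right _ _)
    push_cast at h7
    rwa [abs_of_pos (by positivity)] at h7
  · obtain ⟨a, rfl⟩ := Nat.exists_eq_add_of_le hii
    have h3 : (3 : ℤ) ^ o * 2 ^ a * d = M * 3 ^ o' := by
      have h4 : (2 : ℤ) ^ i * (3 ^ o * 2 ^ a * d) = 2 ^ i * (M * 3 ^ o') := by
        rw [pow_add] at h2; linarith
      exact mul_left_cancel₀ (by positivity) h4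
    have h5 : (2 : ℤ) ^ a ∣ M := by
      have h6 : (2 : ℤ) ^ a ∣ M * 3 ^ o' := ⟨3 ^ o * d, by rw [← h3]; ring⟩
      exact (cop23 a o').dvd_of_dvd_mul_right h6
    have h7 := abs_le_of_dvd h5 hM
    have h8 : ((i : ℤ) - ((i + a : ℕ) : ℤ)).natAbs = a := by push_cast; omega
    rw [h8]
    refine le_trans ?_ (le_max_left _ _)
    push_cast at h7
    rwa [abs_of_pos (by positivity)] at h7

lemma close {L : ℕ → ℝ} {hL : Tendsto L atTop atTop} {i o i' o' : ℕ → ℕ}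
    (h : gm (fun t => un (i t) (o t)) / gm (fun t => un (i' t) (o' t)) ∈ KK L hL) (ε : ℝ)
    (hε : 0 < ε) : ∀ᶠ t in (UU : Filter ℕ), |((i t : ℕ) : ℝ) - (i' t : ℕ)| ≤ ε * L t := by
  obtain ⟨M, d, hM, hd, hd0, hg⟩ := h
  have hl2 : 0 < Real.log 2 := Real.log_pos (by norm_num)
  rw [gm_div, gm_eq] at hg
  filter_upwards [hM (ε * Real.log 2) (by positivity), hd (ε * Real.log 2) (by positivity), hd0, hg]
    with t h1 h2 h3 h4
  have h5 := (ratio_arith h3 h4).trans (max_le h1 h2)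
  have h6 : (2 : ℝ) ^ (((i t : ℕ) : ℤ) - (i' t : ℕ)).natAbs =
      Real.exp (((((i t : ℕ) : ℤ) - (i' t : ℕ)).natAbs : ℕ) * Real.log 2) := by
    rw [Real.exp_nat_mul, Real.exp_log (by norm_num)]
  rw [h6, Real.exp_le_exp] at h5
  have h7 : |((i t : ℕ) : ℝ) - (i' t : ℕ)| = (((((i t : ℕ) : ℤ) - (i' t : ℕ)).natAbs : ℕ) : ℝ) := by
    rw [Nat.cast_natAbs]
    push_cast
    rfl
  rw [h7]
  have h8 : (((((i t : ℕ) : ℤ) - (i' t : ℕ)).natAbs : ℕ) : ℝ) * Real.log 2 ≤ (ε * L t) * Real.log 2 := by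
    linarith
  exact le_of_mul_le_mul_right h8 hl2

/-- no vanishing subsum of close terms -/
def NoSub {m : ℕ} (ε N : ℝ) (i o : Fin m → ℕ) (c : Fin m → ℤ) : Prop :=
  ∀ J : Finset (Fin m), J.Nonempty → (∀ a ∈ J, ∀ b ∈ J, |(i a : ℝ) - i b| ≤ ε * Real.log N) →
    ∑ l ∈ J, (c l : ℚ) * un (i l) (o l) ≠ 0

/-- **Sums of `m` units with small coefficients.** -/
theorem units (m : ℕ) (K ε : ℝ) (hK : 0 ≤ K) (hε : 0 < ε) :
    ∃ δ : ℝ, 0 < δ ∧ ∃ N₀ : ℝ, 1 ≤ N₀ ∧ ∀ N : ℝ, N₀ ≤ N → ∀ (i o : Fin m → ℕ) (c : Fin m → ℤ),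
      (∀ l, (i l : ℝ) ≤ K * Real.log N) → (∀ l, (o l : ℝ) ≤ K * Real.log N) →
      (∀ l, |(c l : ℝ)| ≤ Real.exp (δ * Real.log N)) → NoSub ε N i o c → ∀ k,
      ((un (i k) (o k) : ℚ) : ℝ) * Real.exp (-(ε * Real.log N)) <
        |((∑ l, (c l : ℚ) * un (i l) (o l) : ℚ) : ℝ)| := by
  classical
  by_contra hcon
  have hcon' : ∀ t : ℕ, ∃ N : ℝ, Real.exp t ≤ N ∧ ∃ (i o : Fin m → ℕ) (c : Fin m → ℤ),
      (∀ l, (i l : ℝ) ≤ K * Real.log N) ∧ (∀ l, (o l : ℝ) ≤ K * Real.log N) ∧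
      (∀ l, |(c l : ℝ)| ≤ Real.exp (1 / ((t : ℝ) + 1) * Real.log N)) ∧ NoSub ε N i o c ∧
      ∃ k, |((∑ l, (c l : ℚ) * un (i l) (o l) : ℚ) : ℝ)| ≤
        ((un (i k) (o k) : ℚ) : ℝ) * Real.exp (-(ε * Real.log N)) := by
    intro t
    by_contra h
    push Not at h
    exact hcon ⟨1 / ((t : ℝ) + 1), by positivity, Real.exp t, Real.one_le_exp (Nat.cast_nonneg t),
      fun N hN i o c h1 h2 h3 h4 k => h N hN i o c h1 h2 h3 h4 k⟩
  choose N hN i o c hi ho hc hJ k hle using hcon'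
  set L : ℕ → ℝ := fun t => Real.log (N t) with hLdef
  have hLt : ∀ t : ℕ, (t : ℝ) ≤ L t := by
    intro t
    rw [hLdef]
    dsimp only
    rw [← Real.log_exp (t : ℝ)]
    exact Real.log_le_log (Real.exp_pos _) (hN t)
  have hL : Tendsto L atTop atTop := tendsto_atTop_mono hLt tendsto_natCast_atTop_atTop
  have key := low hL K hK (fun l t => i t l) (fun l t => o t l)
    (fun l => Eventually.of_forall fun t => hi t l)
    (fun l => Eventually.of_forall fun t => ho t l)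
    (fun l t => c t l) ?_ ?_ ε hε
  · obtain ⟨t, ht⟩ := (eventually_all.2 key).exists
    exact absurd (ht (k t)) (not_lt.2 (hle t))
  · intro l η hη
    have h1 : ∀ᶠ t : ℕ in (UU : Filter ℕ), 1 / η ≤ (t : ℝ) :=
      ev_of_atTop (tendsto_natCast_atTop_atTop.eventually_ge_atTop _)
    filter_upwards [h1, L_nonneg hL] with t h2 h3
    refine (hc t l).trans (Real.exp_le_exp.2 ?_)
    apply mul_le_mul_of_nonneg_right _ h3
    rw [div_le_iff₀ (by positivity)]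
    rw [div_le_iff₀ hη] at h2
    nlinarith
  · intro J hJne hJcl
    have h1 : ∀ᶠ t in (UU : Filter ℕ), ∀ a ∈ J, ∀ b ∈ J, |(i t a : ℝ) - (i t b : ℕ)| ≤ ε * L t := by
      rw [Finset.eventually_all]
      intro a ha
      rw [Finset.eventually_all]
      intro b hb
      exact close (i := fun t => i t a) (i' := fun t => i t b) (hJcl a ha b hb) ε hε
    filter_upwards [h1] with t ht
    exact hJ t J hJne ht

end Pool.Agent.H77.Nc
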